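import Pool.Agent.Q207.CF.Defs

/-!
# Amenable forcing relations

Formulas of the language of set theory (`Fml`), their truth in a class (`Sat`) and transitive
models of ZFC (`IsZFC`) are those of `Pool.Agent.W868.Defs`; names, their evaluation, generic
filters and the forcing relation (`Forces`) are those of `Pool.Agent.Q207.CF.Defs`.
-/

set_option autoImplicit false

namespace Q207.AM

open ZFSet (pair)
open Pool.Agent.W868 (Fml Sat)
open Q207.CF (IsName Forces)

/-- The class that is defined over `N` by the formula `δ`, which may have parameters. -/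
def Cls (δ : Fml ZFSet.{0} 1) (N : Set ZFSet.{0}) : Set ZFSet.{0} := {p | p ∈ N ∧ Sat N id δ ![p]}

/-- The relation that is defined over `N` by the formula `ρ`, which may have parameters. -/
def Rel (ρ : Fml ZFSet.{0} 2) (N : Set ZFSet.{0}) (p q : ZFSet.{0}) : Prop := Sat N id ρ ![p, q]

/-- The code of the tuple `(v 0, (v 1, ...))`. -/
noncomputable def tpl : {n : ℕ} → (Fin n → ZFSet.{0}) → ZFSet.{0}
  | 0, _ => ∅
  | _ + 1, v => pair (v 0) (tpl (Fin.tail v))

/-- The forcing relation for the formula `φ` is `M`-amenable: for every `x ∈ M`, the set of all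
tuples `(p, σ 0, ..., σ (n - 1)) ∈ x` such that `p` is a condition, the `σ i` are names in `M`
and `p` forces `φ(σ)` is an element of `M`. Generic filters have to meet the dense sets that are
definable over `M` with parameters from `M`. -/
def Amenable (M P : Set ZFSet.{0}) (le : ZFSet.{0} → ZFSet.{0} → Prop) {n : ℕ}
    (φ : Fml Empty n) : Prop :=
  ∀ x ∈ M, ∃ y ∈ M, ∀ z, z ∈ y ↔ z ∈ x ∧ ∃ p ∈ P, ∃ σ : Fin n → ZFSet.{0},
    (∀ i, σ i ∈ M ∧ IsName P (σ i)) ∧ z = pair p (tpl σ) ∧ Forces M M P le p φ σ

end Q207.AM
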