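import Mathlib

/-!
# Consistency properties for countable sets of rules

The rule `c` says: if all letters in the list `pre c` hold, then all letters in some list in
`ans c` hold.
-/

set_option autoImplicit false

namespace Q207.AM

section

variable {C L : Type*} (V : Set C) (pre : C → List L) (ans : C → Set (List L))

/-- A consistency property for the rules in `V`. -/
def IsCP (𝒮 : Set (List L)) : Prop :=
  ∀ t ∈ 𝒮, ∀ c ∈ V, (∀ x ∈ pre c, x ∈ t) → ∃ l ∈ ans c, l ++ t ∈ 𝒮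

/-- The list of letters belongs to a consistency property. -/
def Pos (s : List L) : Prop := ∃ 𝒮, IsCP V pre ans 𝒮 ∧ s ∈ 𝒮

/-- A set of letters that satisfies all rules in `V`. -/
def IsMod (T : Set L) : Prop :=
  ∀ c ∈ V, (∀ x ∈ pre c, x ∈ T) → ∃ l ∈ ans c, ∀ x ∈ l, x ∈ T

variable {V pre ans}

theorem isCP_pos : IsCP V pre ans {s | Pos V pre ans s} := by
  rintro t ⟨𝒮, h1, h2⟩ c hc hp
  obtain ⟨l, hl, h3⟩ := h1 t h2 c hc hp
  exact ⟨l, hl, 𝒮, h1, h3⟩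

theorem pos_of_mod {T : Set L} (hT : IsMod V pre ans T) {s : List L} (hs : ∀ x ∈ s, x ∈ T) :
    Pos V pre ans s := by
  refine ⟨{t | ∀ x ∈ t, x ∈ T}, fun t ht c hc hp => ?_, hs⟩
  obtain ⟨l, hl, h⟩ := hT c hc fun x hx => ht x (hp x hx)
  refine ⟨l, hl, fun x hx => ?_⟩
  rcases List.mem_append.1 hx with hx | hx
  · exact h x hx
  · exact ht x hx

theorem exists_mod (hV : V.Countable) {s : List L} (hs : Pos V pre ans s) :
    ∃ T, IsMod V pre ans T ∧ ∀ x ∈ s, x ∈ T := by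
  classical
  rcases V.eq_empty_or_nonempty with hV0 | hV0
  · subst hV0
    exact ⟨{x | x ∈ s}, fun c hc => absurd hc (Set.notMem_empty c), fun x hx => hx⟩
  obtain ⟨f, hf⟩ := hV.exists_eq_range hV0
  have hfV : ∀ n, f n ∈ V := fun n => by
    rw [hf]
    exact ⟨n, rfl⟩
  have h1 : ∀ (n : ℕ) (t : {t // Pos V pre ans t}), ∃ t' : {t // Pos V pre ans t},
      (∀ x ∈ t.1, x ∈ t'.1) ∧ ((∀ x ∈ pre (f n), x ∈ t.1) → ∃ l ∈ ans (f n), ∀ x ∈ l, x ∈ t'.1) := by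
    intro n t
    by_cases h : ∀ x ∈ pre (f n), x ∈ t.1
    · obtain ⟨l, hl, h2⟩ := isCP_pos t.1 t.2 (f n) (hfV n) h
      exact ⟨⟨l ++ t.1, h2⟩, fun x hx => List.mem_append.2 (Or.inr hx),
        fun _ => ⟨l, hl, fun x hx => List.mem_append.2 (Or.inl hx)⟩⟩
    · exact ⟨t, fun x hx => hx, fun h' => absurd h' h⟩
  choose g hg1 hg2 using h1
  let S : ℕ → {t // Pos V pre ans t} := fun n => Nat.rec ⟨s, hs⟩ (fun n t => g n.unpair.1 t) n
  have hS : ∀ n, S (n + 1) = g n.unpair.1 (S n) := fun n => rfl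
  have hmono : ∀ n m, ∀ x ∈ (S n).1, x ∈ (S (n + m)).1 := by
    intro n m
    induction m with
    | zero => exact fun x hx => hx
    | succ m ih => exact fun x hx => hg1 _ _ x (ih x hx)
  refine ⟨{x | ∃ n, x ∈ (S n).1}, ?_, fun x hx => ⟨0, hx⟩⟩
  intro c hc hp
  rw [hf] at hc
  obtain ⟨k, rfl⟩ := hc
  have h3 : ∃ n, ∀ x ∈ pre (f k), x ∈ (S n).1 := by
    have key : ∀ l : List L, (∀ x ∈ l, ∃ n, x ∈ (S n).1) → ∃ n, ∀ x ∈ l, x ∈ (S n).1 := by
      intro l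
      induction l with
      | nil => exact fun _ => ⟨0, fun x hx => absurd hx List.not_mem_nil⟩
      | cons a l ih =>
        intro h
        obtain ⟨n, hn⟩ := ih fun x hx => h x (List.mem_cons_of_mem _ hx)
        obtain ⟨m, hm⟩ := h a List.mem_cons_self
        refine ⟨n + m, fun x hx => ?_⟩
        rcases List.mem_cons.1 hx with rfl | hx
        · rw [Nat.add_comm]
          exact hmono _ _ _ hm
        · exact hmono _ _ _ (hn x hx)
    exact key _ hp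
  obtain ⟨n, hn⟩ := h3
  have h4 : (Nat.pair k n).unpair.1 = k := by rw [Nat.unpair_pair]
  obtain ⟨d, hd⟩ : ∃ d, Nat.pair k n = n + d := Nat.exists_eq_add_of_le (Nat.right_le_pair k n)
  obtain ⟨l, hl, h5⟩ := hg2 k (S (Nat.pair k n)) (by
    intro x hx
    rw [hd]
    exact hmono _ _ _ (hn x hx))
  refine ⟨l, hl, fun x hx => ⟨Nat.pair k n + 1, ?_⟩⟩
  rw [hS, h4]
  exact h5 x hx

end

section

variable {C : Type*} {L : Type 1} (V : Set C) (pre : C → List L) (ans : C → Set (List L))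

/-- The lists that are refuted at stage `o`. -/
def Stg (o : Ordinal.{1}) : Set (List L) :=
  {s | ∃ c ∈ V, (∀ x ∈ pre c, x ∈ s) ∧ ∀ l ∈ ans c, ∃ o', ∃ _ : o' < o, l ++ s ∈ Stg o'}
termination_by o

variable {V pre ans}

theorem mem_stg {o : Ordinal.{1}} {s : List L} : s ∈ Stg V pre ans o ↔
    ∃ c ∈ V, (∀ x ∈ pre c, x ∈ s) ∧ ∀ l ∈ ans c, ∃ o' < o, l ++ s ∈ Stg V pre ans o' := by
  rw [Stg]
  simp only [Set.mem_ofPred_eq, exists_prop]

theorem not_pos_of_stg {o : Ordinal.{1}} : ∀ {s : List L}, s ∈ Stg V pre ans o →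
    ¬ Pos V pre ans s := by
  induction o using Ordinal.induction with
  | _ o ih =>
  intro s hs h
  obtain ⟨c, hc, hp, h1⟩ := mem_stg.1 hs
  obtain ⟨l, hl, h2⟩ := isCP_pos s h c hc hp
  obtain ⟨o', ho', h3⟩ := h1 l hl
  exact ih o' ho' h3 h2

theorem exists_stg {s : List L} (hs : ¬ Pos V pre ans s) : ∃ o, s ∈ Stg V pre ans o := by
  by_contra h
  refine hs ⟨{t | ¬ ∃ o, t ∈ Stg V pre ans o}, fun t ht c hc hp => ?_, h⟩
  by_contra h1
  have h2 : ∀ l : ans c, ∃ o, l.1 ++ t ∈ Stg V pre ans o := by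
    intro l
    by_contra h3
    exact h1 ⟨l.1, l.2, h3⟩
  choose f hf using h2
  refine ht ⟨⨆ l : ans c, Order.succ (f l), mem_stg.2 ⟨c, hc, hp, fun l hl => ?_⟩⟩
  refine ⟨f ⟨l, hl⟩, ?_, hf ⟨l, hl⟩⟩
  exact lt_of_lt_of_le (Order.lt_succ _)
    (Ordinal.le_iSup (fun l : ans c => Order.succ (f l)) ⟨l, hl⟩)

variable (V pre ans)

theorem exists_rank : ∃ rk : List L → Ordinal.{1}, ∀ s, ¬ Pos V pre ans s →
    ∃ c ∈ V, (∀ x ∈ pre c, x ∈ s) ∧ ∀ l ∈ ans c, ¬ Pos V pre ans (l ++ s) ∧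
      rk (l ++ s) < rk s := by
  refine ⟨fun s => sInf {o | s ∈ Stg V pre ans o}, fun s hs => ?_⟩
  have h1 : s ∈ Stg V pre ans (sInf {o | s ∈ Stg V pre ans o}) := csInf_mem (exists_stg hs)
  obtain ⟨c, hc, hp, h2⟩ := mem_stg.1 h1
  refine ⟨c, hc, hp, fun l hl => ?_⟩
  obtain ⟨o', ho', h3⟩ := h2 l hl
  exact ⟨not_pos_of_stg h3, lt_of_le_of_lt (csInf_le' h3) ho'⟩

end

end Q207.AM
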