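import Pool.Agent.Q207.AM.Trans

/-!
# A model over which all definable class forcings have an amenable forcing relation
-/

set_option autoImplicit false

namespace Q207.AM

open ZFSet (pair)
open Pool.Agent.W868 (Fml Sat Dfn DfnF IsBase IsZF IsZFC TOver tOver_inr isBase_univ sat_subst
  over_subst over_map sat_map sat_congr nat mem_omega_iff map_map countable_fml)
open Q207.CF (IsName val mem_val Ext IsFilter IsDense IsDefinable IsGeneric Forces wf_name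
  isName_iff)
open Par (ps)

theorem over_empty {S : Set ZFSet.{0}} {m : ℕ} (φ : Fml Empty m) :
    (φ.map (Empty.elim : Empty → ZFSet.{0})).Over S := by
  rw [over_map]
  induction φ with
  | mem s t => exact ⟨fun a _ => a.elim, fun a _ => a.elim⟩
  | eq s t => exact ⟨fun a _ => a.elim, fun a _ => a.elim⟩
  | neg φ ih => exact ih
  | and φ ψ ih1 ih2 => exact ⟨ih1, ih2⟩
  | ex φ ih => exact ih

/-- The sentence about the names. -/
def phs {n : ℕ} (φ : Fml Empty n) (σ : Fin n → ZFSet.{0}) : Fml ZFSet.{0} 0 :=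
  (φ.map (Empty.elim : Empty → ZFSet.{0})).subst fun i => Sum.inr (σ i)

theorem over_phs {S : Set ZFSet.{0}} {n : ℕ} (φ : Fml Empty n) {σ : Fin n → ZFSet.{0}}
    (hσ : ∀ i, σ i ∈ S) : (phs φ σ).Over S :=
  over_subst _ _ (fun i => tOver_inr.2 (hσ i)) (over_empty φ)

theorem phs_map (h : ZFSet.{0} → ZFSet.{0}) {n : ℕ} (φ : Fml Empty n) (σ : Fin n → ZFSet.{0}) :
    (phs φ σ).map h = phs φ fun i => h (σ i) := by
  rw [phs, subst_map, map_map]
  have h1 : (h ∘ Empty.elim : Empty → ZFSet.{0}) = Empty.elim := funext fun a => a.elim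
  rw [h1]
  rfl

theorem sat_phs {E : Set ZFSet.{0}} (G : Set ZFSet.{0}) {n : ℕ} (φ : Fml Empty n)
    (σ : Fin n → ZFSet.{0}) :
    Sat E (val G) (phs φ σ) Fin.elim0 ↔ Sat E Empty.elim φ fun i => val G (σ i) := by
  rw [phs, sat_subst, sat_map]
  have h1 : (val G ∘ Empty.elim : Empty → ZFSet.{0}) = Empty.elim := funext fun a => a.elim
  rw [h1]
  exact Iff.rfl

/-- The letters that say that the condition is in `G` and the formula fails. -/
def lts {n : ℕ} (φ : Fml Empty n) (p : ZFSet.{0}) (σ : Fin n → ZFSet.{0}) : List Lt :=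
  [.g true p, .f false (phs φ σ)]

theorem lts_map (h : ZFSet.{0} → ZFSet.{0}) {n : ℕ} (φ : Fml Empty n) (p : ZFSet.{0})
    (σ : Fin n → ZFSet.{0}) :
    (lts φ p σ).map (Lt.mp h) = lts φ (h p) fun i => h (σ i) := by
  simp only [lts, List.map_cons, List.map_nil, Lt.mp, phs_map]

/-- The element of the forcing relation. -/
def qU (δ : Fml ZFSet.{0} 1) (ρ : Fml ZFSet.{0} 2) {n : ℕ} (φ : Fml Empty n)
    (z : ZFSet.{0}) : Prop :=
  ∃ p ∈ Cls δ Set.univ, ∃ σ : Fin n → ZFSet.{0}, (∀ i, σ i ∈ Nm Set.univ (Cls δ Set.univ)) ∧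
    z = pair p (tpl σ) ∧ ¬ Co Set.univ δ ρ (lts φ p σ)

/-- The intersection with the forcing relation. -/
def Ram {n : ℕ} (φ : Fml Empty n) (d : (Fml ZFSet.{0} 1 × Fml ZFSet.{0} 2) × ZFSet.{0})
    (y : ZFSet.{0}) : Prop := ∀ z, z ∈ y ↔ z ∈ d.2 ∧ qU d.1.1 d.1.2 φ z

/-- Truth. -/
def Rsat (φ : Fml ZFSet.{0} 1) (a : ZFSet.{0}) : Prop := Sat Set.univ id φ ![a]

theorem exists_hull' : ∃ X, Hul' X ∧ ∀ (n : ℕ) (φ : Fml Empty n), opR (Ram φ) X ⊆ X := by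
  let 𝒪 : Set (Set ZFSet.{0} → Set ZFSet.{0}) := {opR Rsat, opR Rnm, opR Rans, opR Rrul} ∪
    ⋃ n : ℕ, (fun φ : Fml Empty n => opR (Ram φ)) '' {φ | φ.Over Set.univ}
  have h𝒪 : 𝒪.Countable := by
    refine Set.Countable.union (Set.toFinite _).countable ?_
    exact Set.countable_iUnion fun n => (countable_fml Set.countable_univ n).image _
  obtain ⟨X, hc, h0, hcl⟩ := exists_hull h𝒪 (by
    rintro Φ ((rfl | rfl | rfl | rfl) | h)
    · exact goodOp _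
    · exact goodOp _
    · exact goodOp _
    · exact goodOp _
    · obtain ⟨n, φ, -, rfl⟩ := Set.mem_iUnion.1 h
      exact goodOp _) (X₀ := {ZFSet.omega}) (Set.countable_singleton _)
  refine ⟨X, ⟨⟨hc, h0 rfl, ?_⟩, hcl _ (Or.inl (Or.inr (Or.inl rfl))),
    hcl _ (Or.inl (Or.inr (Or.inr (Or.inl rfl)))), hcl _ (Or.inl (Or.inr (Or.inr (Or.inr rfl))))⟩,
    ?_⟩
  · intro φ hφ h
    obtain ⟨a, ha, h1⟩ := wit_of (R := Rsat) (hcl _ (Or.inl (Or.inl rfl))) (over_iff.1 hφ) h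
    exact ⟨a, ps_set.1 ha, h1⟩
  · intro n φ
    refine hcl _ (Or.inr (Set.mem_iUnion.2 ⟨n, φ, ?_, rfl⟩))
    have key : ∀ {m : ℕ} (ψ : Fml Empty m), ψ.Over Set.univ := by
      intro m ψ
      induction ψ with
      | mem s t => exact ⟨fun a _ => trivial, fun a _ => trivial⟩
      | eq s t => exact ⟨fun a _ => trivial, fun a _ => trivial⟩
      | neg φ ih => exact ih
      | and φ ψ ih1 ih2 => exact ⟨ih1, ih2⟩
      | ex φ ih => exact ih
    exact key φ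

/-- Forcing over a countable model is consistency. -/
theorem forces_iff {M : Set ZFSet.{0}} (hM : ∀ x ∈ M, ∀ y ∈ x, y ∈ M) (hc : M.Countable)
    {δ : Fml ZFSet.{0} 1} {ρ : Fml ZFSet.{0} 2} (hps : ∀ c, Vl M (Cls δ M) (Rel ρ M) c → ps c ⊆ M)
    {n : ℕ} (φ : Fml Empty n) {p : ZFSet.{0}} (hp : p ∈ Cls δ M) {σ : Fin n → ZFSet.{0}}
    (hσ : ∀ i, σ i ∈ Nm M (Cls δ M)) :
    Forces M M (Cls δ M) (Rel ρ M) p φ σ ↔ ¬ Co M δ ρ (lts φ p σ) := by
  have hov : (phs φ σ).Over (Nm M (Cls δ M)) := over_phs φ hσ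
  have hV : {c | Vl M (Cls δ M) (Rel ρ M) c}.Countable :=
    (Par.cnt M hc (D := Ru)).mono fun c hc => hps c hc
  constructor
  · intro hF hco
    obtain ⟨T, hT, hs⟩ := exists_mod hV hco
    have h1 : Lt.g true p ∈ T := hs _ (by simp [lts])
    have h2 : Lt.f false (phs φ σ) ∈ T := hs _ (by simp [lts])
    have hG := gen_of_mod hT hp h1
    have h3 := hF _ hG ⟨hp, h1⟩
    have h4 := (mod_tr hM hT (B := .f false (phs φ σ)) hov).1 h2
    simp only [Tr, Bool.false_eq_true, iff_false] at h4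
    exact h4 ((sat_phs _ φ σ).2 h3)
  · intro h G hG hpG
    by_contra h1
    refine h (pos_of_mod (mod_of_gen hM hG) fun x hx => ?_)
    simp only [lts, List.mem_cons, List.not_mem_nil, or_false] at hx
    rcases hx with rfl | rfl
    · exact ⟨fun _ => rfl, fun _ => hpG⟩
    · simp only [Tr, Bool.false_eq_true, iff_false, Set.mem_ofPred_eq]
      exact fun h2 => h1 ((sat_phs _ φ σ).1 h2)

section

variable {X : Set ZFSet.{0}} (hX : Hul X)

include hX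

theorem tpl_X : {n : ℕ} → {σ : Fin n → ZFSet.{0}} → (∀ i, σ i ∈ X) → tpl σ ∈ X
  | 0, _, _ => empty_X hX
  | _ + 1, _, h => pair_X hX (h 0) (tpl_X fun i => h _)

theorem of_tpl_X : {n : ℕ} → {σ : Fin n → ZFSet.{0}} → tpl σ ∈ X → ∀ i, σ i ∈ X
  | 0, _, _, i => i.elim0
  | _ + 1, σ, h, i => by
    have h1 := of_pair_X hX h
    refine Fin.cases ?_ (fun i => ?_) i
    · exact h1.1
    · exact of_tpl_X h1.2 i

theorem mos_tpl : {n : ℕ} → {σ : Fin n → ZFSet.{0}} → (∀ i, σ i ∈ X) →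
    mos X (tpl σ) = tpl fun i => mos X (σ i)
  | 0, _, _ => mos_empty
  | _ + 1, σ, h => by
    have h1 := mos_tpl (σ := Fin.tail σ) fun i => h _
    have h2 : tpl (Fin.tail σ) ∈ X := tpl_X hX fun i => h _
    rw [tpl, mos_pair hX (h 0) h2, h1]
    rfl

end

theorem amenable {X : Set ZFSet.{0}} (hX : Hul' X)
    (hR : ∀ (n : ℕ) (φ : Fml Empty n), opR (Ram φ) X ⊆ X) {δ : Fml ZFSet.{0} 1}
    {ρ : Fml ZFSet.{0} 2} (hδ : δ.Over X) (hρ : ρ.Over X) {n : ℕ} (φ : Fml Empty n) :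
    Amenable (Mo X) (Cls (δ.map (mos X)) (Mo X)) (Rel (ρ.map (mos X)) (Mo X)) φ := by
  have hX0 := hX.toHul
  have hF : ∀ {p : ZFSet.{0}}, p ∈ X → ∀ {σ : Fin n → ZFSet.{0}}, (∀ i, σ i ∈ X) →
      mos X p ∈ Cls (δ.map (mos X)) (Mo X) →
      (∀ i, mos X (σ i) ∈ Nm (Mo X) (Cls (δ.map (mos X)) (Mo X))) →
      (Forces (Mo X) (Mo X) (Cls (δ.map (mos X)) (Mo X)) (Rel (ρ.map (mos X)) (Mo X)) (mos X p) φ
        (fun i => mos X (σ i)) ↔ ¬ Co Set.univ δ ρ (lts φ p σ)) := by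
    intro p hp σ hσ hp' hσ'
    rw [forces_iff (trans_Mo hX0) (countable_Mo hX0) (fun c hc => ps_vl hX hc) φ hp' hσ',
      ← lts_map, co_iff hX hδ hρ]
    rw [lts, ps_list]
    intro B hB
    simp only [List.mem_cons, List.not_mem_nil, or_false] at hB
    rcases hB with rfl | rfl
    · rintro x rfl
      exact hp
    · exact over_iff.1 (over_phs φ hσ)
  rintro _ ⟨x, hx, rfl⟩
  have h1 : ∃ y, Ram φ ((δ, ρ), x) y := ⟨ZFSet.sep (qU δ ρ φ) x, fun z => ZFSet.mem_sep⟩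
  obtain ⟨y, hy, h2⟩ := wit_of (hR n φ) (d := ((δ, ρ), x))
    (ps_prod.2 ⟨ps_prod.2 ⟨over_iff.1 hδ, over_iff.1 hρ⟩, ps_set.2 hx⟩) h1
  rw [ps_set] at hy
  have h2' : ∀ z, z ∈ y ↔ z ∈ x ∧ qU δ ρ φ z := h2
  refine ⟨mos X y, ⟨y, hy, rfl⟩, fun z' => ?_⟩
  rw [mem_mos, mem_mos]
  constructor
  · rintro ⟨z, hz, hzX, rfl⟩
    rw [h2'] at hz
    obtain ⟨hzx, p, hp, σ, hσ, rfl, hco⟩ := hz
    obtain ⟨hpX, hσX⟩ := of_pair_X hX0 hzX
    have hσX := of_tpl_X hX0 hσX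
    have hp' := (cls_iff hX hδ hpX).1 hp
    have hσ' := fun i => (nm_iff hX hδ (hσX i)).1 (hσ i)
    refine ⟨⟨_, hzx, hzX, rfl⟩, mos X p, hp', fun i => mos X (σ i), hσ', ?_, ?_⟩
    · rw [mos_pair hX0 hpX (tpl_X hX0 hσX), mos_tpl hX0 hσX]
    · exact (hF hpX hσX hp' hσ').2 hco
  · rintro ⟨⟨z, hzx, hzX, rfl⟩, p', hp', σ', hσ', h3, h4⟩
    obtain ⟨p, hp, rfl⟩ := hp'.1
    choose σ hσ hσσ using fun i => (hσ' i).1
    obtain rfl : (fun i => mos X (σ i)) = σ' := funext hσσ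
    have h5 : z = pair p (tpl σ) := by
      rw [← mos_tpl hX0 hσ, ← mos_pair hX0 hp (tpl_X hX0 hσ)] at h3
      exact (mos_inj hX0 hzX (pair_X hX0 hp (tpl_X hX0 hσ))).1 h3
    subst h5
    refine ⟨_, (h2' _).2 ⟨hzx, p, (cls_iff hX hδ hp).2 hp', σ,
      fun i => (nm_iff hX hδ (hσ i)).2 (hσ' i), rfl, ?_⟩, hzX, rfl⟩
    exact (hF hp hσ hp' hσ').1 h4

/-- There is a countable transitive model of ZFC over which all definable notions of class
forcing have an amenable forcing relation. -/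
theorem main : ∃ M : Set ZFSet.{0}, IsZFC M ∧ M.Countable ∧
    ∀ (δ : Fml ZFSet.{0} 1) (ρ : Fml ZFSet.{0} 2), δ.Over M → ρ.Over M →
      ∀ (n : ℕ) (φ : Fml Empty n), Amenable M (Cls δ M) (Rel ρ M) φ := by
  obtain ⟨X, hX, hR⟩ := exists_hull'
  refine ⟨Mo X, isZFC_Mo hX.toHul, countable_Mo hX.toHul, ?_⟩
  intro δ' ρ' hδ' hρ' n φ
  obtain ⟨δ, hδ, rfl⟩ := exists_fml δ' hδ'
  obtain ⟨ρ, hρ, rfl⟩ := exists_fml ρ' hρ'
  exact amenable hX hR hδ hρ φ

end Q207.AM
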