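import Pool.Agent.Q207.AM.Par

/-!
# Countable elementary submodels of the universe and their collapses
-/

set_option autoImplicit false

namespace Q207.AM

open ZFSet (pair)
open Pool.Agent.W868 (Fml Sat Dfn DfnF IsBase IsZF IsZFC TOver tOver_inr isBase_univ sat_subst
  over_subst over_map sat_map sat_congr nat mem_omega_iff)

/-- A countable elementary submodel of the universe. -/
structure Hul (X : Set ZFSet.{0}) : Prop where
  cnt : X.Countable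
  om : ZFSet.omega ∈ X
  wit : ∀ φ : Fml ZFSet.{0} 1, φ.Over X → (∃ a, Sat Set.univ id φ ![a]) →
    ∃ a ∈ X, Sat Set.univ id φ ![a]

/-- The collapse. -/
noncomputable def mos (X : Set ZFSet.{0}) : ZFSet.{0} → ZFSet.{0} :=
  ZFSet.mem_wf.fix fun x ih => ZFSet.range fun t : {t : {y : ZFSet.{0} // y ∈ x} // t.1 ∈ X} =>
    ih t.1.1 t.1.2

theorem mem_mos {X : Set ZFSet.{0}} {x z : ZFSet.{0}} :
    z ∈ mos X x ↔ ∃ y ∈ x, y ∈ X ∧ mos X y = z := by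
  rw [mos, WellFounded.fix_eq, ZFSet.mem_range]
  constructor
  · rintro ⟨⟨⟨y, hy⟩, hyX⟩, rfl⟩
    exact ⟨y, hy, hyX, rfl⟩
  · rintro ⟨y, hy, hyX, rfl⟩
    exact ⟨⟨⟨y, hy⟩, hyX⟩, rfl⟩

/-- The collapsed model. -/
def Mo (X : Set ZFSet.{0}) : Set ZFSet.{0} := mos X '' X

variable {X : Set ZFSet.{0}} (hX : Hul X)

include hX

theorem Hul.ex {Q : ZFSet.{0} → Prop}
    (h : Dfn X Set.univ fun w : Fin 1 → ZFSet.{0} => Q (w 0)) (h' : ∃ a, Q a) :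
    ∃ a ∈ X, Q a := by
  obtain ⟨φ, h1, h2⟩ := h
  obtain ⟨a, ha⟩ := h'
  obtain ⟨b, hb, h3⟩ := hX.wit φ h1 ⟨a, (h2 _ fun _ => trivial).2 ha⟩
  exact ⟨b, hb, (h2 _ fun _ => trivial).1 h3⟩

theorem Hul.all {Q : ZFSet.{0} → Prop}
    (h : Dfn X Set.univ fun w : Fin 1 → ZFSet.{0} => Q (w 0)) (h' : ∀ a ∈ X, Q a) :
    ∀ a, Q a := by
  by_contra h1
  push Not at h1
  obtain ⟨a, ha, h2⟩ := hX.ex h.not h1
  exact h2 (h' a ha)

theorem Hul.eq {a : ZFSet.{0}} (h : Dfn X Set.univ fun w : Fin 1 → ZFSet.{0} => w 0 = a) :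
    a ∈ X := by
  obtain ⟨b, hb, rfl⟩ := hX.ex (Q := fun b => b = a) h ⟨a, rfl⟩
  exact hb

omit hX in
theorem dc {n : ℕ} {a : ZFSet.{0}} (ha : a ∈ X) : DfnF X Set.univ fun _ : Fin n → ZFSet.{0} => a :=
  DfnF.const' trivial ha

theorem Hul.ext {x y : ZFSet.{0}} (hx : x ∈ X) (hy : y ∈ X)
    (h : ∀ z ∈ X, (z ∈ x ↔ z ∈ y)) : x = y := by
  refine ZFSet.ext fun z => ?_
  exact hX.all (Q := fun z => z ∈ x ↔ z ∈ y)
    ((Dfn.mem (DfnF.proj 0) (dc hx)).iff (Dfn.mem (DfnF.proj 0) (dc hy))) h z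

theorem mos_inj' : ∀ x, ∀ y, x ∈ X → y ∈ X → mos X x = mos X y → x = y := by
  intro x
  induction x using ZFSet.inductionOn with
  | _ x ih =>
  intro y hx hy h
  refine hX.ext hx hy fun z hz => ?_
  constructor
  · intro hzx
    have h1 : mos X z ∈ mos X x := mem_mos.2 ⟨z, hzx, hz, rfl⟩
    rw [h] at h1
    obtain ⟨w, hw, hwX, h2⟩ := mem_mos.1 h1
    rwa [ih z hzx w hz hwX h2.symm]
  · intro hzy
    have h1 : mos X z ∈ mos X y := mem_mos.2 ⟨z, hzy, hz, rfl⟩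
    rw [← h] at h1
    obtain ⟨w, hw, hwX, h2⟩ := mem_mos.1 h1
    rwa [← ih w hw z hwX hz h2]

theorem mos_inj {x y : ZFSet.{0}} (hx : x ∈ X) (hy : y ∈ X) : mos X x = mos X y ↔ x = y :=
  ⟨mos_inj' hX x y hx hy, fun h => h ▸ rfl⟩

theorem mos_mem {x y : ZFSet.{0}} (hx : x ∈ X) (hy : y ∈ X) : mos X x ∈ mos X y ↔ x ∈ y := by
  constructor
  · intro h
    obtain ⟨w, hw, hwX, h1⟩ := mem_mos.1 h
    rwa [← (mos_inj hX hwX hx).1 h1]
  · exact fun h => mem_mos.2 ⟨x, h, hx, rfl⟩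

theorem upair_X {x y : ZFSet.{0}} (hx : x ∈ X) (hy : y ∈ X) : ({x, y} : ZFSet.{0}) ∈ X :=
  hX.eq (Dfn.eq (DfnF.proj 0) (isBase_univ.upair' (dc hx) (dc hy)))

theorem pair_X {x y : ZFSet.{0}} (hx : x ∈ X) (hy : y ∈ X) : pair x y ∈ X :=
  hX.eq (Dfn.eq (DfnF.proj 0) (isBase_univ.pair' (dc hx) (dc hy)))

theorem of_pair_X {x y : ZFSet.{0}} (h : pair x y ∈ X) : x ∈ X ∧ y ∈ X := by
  constructor
  · obtain ⟨a, ha, b, hb⟩ := hX.ex (Q := fun a => ∃ b ∈ Set.univ, pair x y = pair a b) (by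
      apply Dfn.ex
      exact Dfn.eq (dc h) (isBase_univ.pair' (DfnF.proj 1) (DfnF.proj 0)))
      ⟨x, y, trivial, rfl⟩
    rw [(ZFSet.pair_inj.1 hb.2).1]
    exact ha
  · obtain ⟨a, ha, b, hb⟩ := hX.ex (Q := fun a => ∃ b ∈ Set.univ, pair x y = pair b a) (by
      apply Dfn.ex
      exact Dfn.eq (dc h) (isBase_univ.pair' (DfnF.proj 0) (DfnF.proj 1)))
      ⟨y, x, trivial, rfl⟩
    rw [(ZFSet.pair_inj.1 hb.2).2]
    exact ha

theorem insert_X {x y : ZFSet.{0}} (hx : x ∈ X) (hy : y ∈ X) : (insert x y : ZFSet.{0}) ∈ X :=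
  hX.eq (Dfn.eq (DfnF.proj 0) (isBase_univ.insert' (dc hx) (dc hy)))

theorem empty_X : (∅ : ZFSet.{0}) ∈ X := by
  refine hX.eq ?_
  have h1 : Dfn X Set.univ fun w : Fin 1 → ZFSet.{0} => ∀ z ∈ w 0, False :=
    isBase_univ.ball (DfnF.proj 0) (Dfn.prop False)
  refine h1.congr fun w _ => ?_
  rw [ZFSet.eq_empty]

theorem nat_X (n : ℕ) : nat n ∈ X := by
  induction n with
  | zero => exact empty_X hX
  | succ n ih => exact insert_X hX ih ih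

theorem mos_upair {x y : ZFSet.{0}} (hx : x ∈ X) (hy : y ∈ X) :
    mos X {x, y} = {mos X x, mos X y} := by
  ext z
  rw [mem_mos, ZFSet.mem_pair]
  constructor
  · rintro ⟨w, hw, -, rfl⟩
    rcases ZFSet.mem_pair.1 hw with rfl | rfl
    · exact Or.inl rfl
    · exact Or.inr rfl
  · rintro (rfl | rfl)
    · exact ⟨x, ZFSet.mem_pair.2 (Or.inl rfl), hx, rfl⟩
    · exact ⟨y, ZFSet.mem_pair.2 (Or.inr rfl), hy, rfl⟩

theorem mos_pair {x y : ZFSet.{0}} (hx : x ∈ X) (hy : y ∈ X) :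
    mos X (pair x y) = pair (mos X x) (mos X y) := by
  have h := mos_upair hX (upair_X hX hx hx) (upair_X hX hx hy)
  rw [mos_upair hX hx hx, mos_upair hX hx hy, ZFSet.pair_eq_singleton,
    ZFSet.pair_eq_singleton] at h
  exact h

theorem mos_insert {x y : ZFSet.{0}} (hx : x ∈ X) :
    mos X (insert x y) = insert (mos X x) (mos X y) := by
  ext z
  rw [mem_mos, ZFSet.mem_insert_iff, mem_mos]
  constructor
  · rintro ⟨w, hw, hwX, rfl⟩
    rcases ZFSet.mem_insert_iff.1 hw with rfl | hw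
    · exact Or.inl rfl
    · exact Or.inr ⟨w, hw, hwX, rfl⟩
  · rintro (rfl | ⟨w, hw, hwX, rfl⟩)
    · exact ⟨x, ZFSet.mem_insert x y, hx, rfl⟩
    · exact ⟨w, ZFSet.mem_insert_of_mem x hw, hwX, rfl⟩

omit hX in
theorem mos_empty : mos X ∅ = ∅ := by
  ext z
  rw [mem_mos]
  simp

theorem mos_nat (n : ℕ) : mos X (nat n) = nat n := by
  induction n with
  | zero => exact mos_empty
  | succ n ih => rw [nat, mos_insert hX (nat_X hX n), ih]

theorem mos_omega : mos X ZFSet.omega = ZFSet.omega := by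
  ext z
  rw [mem_mos, mem_omega_iff]
  constructor
  · rintro ⟨w, hw, -, rfl⟩
    obtain ⟨n, rfl⟩ := mem_omega_iff.1 hw
    exact ⟨n, mos_nat hX n⟩
  · rintro ⟨n, rfl⟩
    exact ⟨nat n, mem_omega_iff.2 ⟨n, rfl⟩, nat_X hX n, mos_nat hX n⟩

theorem trans_Mo : ∀ x ∈ Mo X, ∀ y ∈ x, y ∈ Mo X := by
  rintro _ ⟨x, hx, rfl⟩ y hy
  obtain ⟨b, hb, hbX, rfl⟩ := mem_mos.1 hy
  exact ⟨b, hbX, rfl⟩

omit hX in
theorem mos_cons {n : ℕ} (v : Fin n → ZFSet.{0}) (x : ZFSet.{0}) :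
    (fun i => mos X ((Fin.cons x v : Fin (n + 1) → ZFSet.{0}) i)) =
      Fin.cons (mos X x) fun i => mos X (v i) := by
  funext i
  refine Fin.cases ?_ (fun i => ?_) i
  · rfl
  · rfl

theorem tm_mos {n : ℕ} {v : Fin n → ZFSet.{0}} (hv : ∀ i, v i ∈ X) {t : Fin n ⊕ ZFSet.{0}}
    (ht : TOver X t) : Sum.elim v id t ∈ X ∧
      Sum.elim (fun i => mos X (v i)) id (Sum.map id (mos X) t) = mos X (Sum.elim v id t) := by
  cases t with
  | inl i => exact ⟨hv i, rfl⟩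
  | inr a => exact ⟨ht a rfl, rfl⟩

/-- Elementarity. -/
theorem sat_mos : {n : ℕ} → (φ : Fml ZFSet.{0} n) → φ.Over X → (v : Fin n → ZFSet.{0}) →
    (∀ i, v i ∈ X) →
      (Sat (Mo X) id (φ.map (mos X)) (fun i => mos X (v i)) ↔ Sat Set.univ id φ v)
  | _, .mem s t, hφ, v, hv => by
    simp only [Sat, Pool.Agent.W868.Fml.map]
    rw [(tm_mos hX hv hφ.1).2, (tm_mos hX hv hφ.2).2]
    exact mos_mem hX (tm_mos hX hv hφ.1).1 (tm_mos hX hv hφ.2).1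
  | _, .eq s t, hφ, v, hv => by
    simp only [Sat, Pool.Agent.W868.Fml.map]
    rw [(tm_mos hX hv hφ.1).2, (tm_mos hX hv hφ.2).2]
    exact mos_inj hX (tm_mos hX hv hφ.1).1 (tm_mos hX hv hφ.2).1
  | n, .neg φ, hφ, v, hv => not_congr (sat_mos φ hφ v hv)
  | _, .and φ ψ, hφ, v, hv => and_congr (sat_mos φ hφ.1 v hv) (sat_mos ψ hφ.2 v hv)
  | n, .ex φ, hφ, v, hv => by
    have hc : ∀ a ∈ X, ∀ k, (Fin.cons a v : Fin (n + 1) → ZFSet.{0}) k ∈ X := by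
      intro a ha k
      refine Fin.cases ?_ (fun k => ?_) k
      · exact ha
      · exact hv k
    have ih := fun x (hx : x ∈ X) => sat_mos φ hφ (Fin.cons x v) (hc x hx)
    simp only [mos_cons] at ih
    simp only [Sat, Pool.Agent.W868.Fml.map]
    constructor
    · rintro ⟨_, ⟨x, hx, rfl⟩, hs⟩
      exact ⟨x, trivial, (ih x hx).1 hs⟩
    · rintro ⟨x, -, hs⟩
      let σ : Fin (n + 1) → Fin 1 ⊕ ZFSet.{0} := Fin.cons (Sum.inl 0) fun i => Sum.inr (v i)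
      have hσ : ∀ j, TOver X (σ j) := by
        intro j
        refine Fin.cases ?_ (fun j => ?_) j
        · exact TOver.inl 0
        · exact tOver_inr.2 (hv j)
      have hs' : ∀ a, Sat Set.univ id (φ.subst σ) ![a] ↔ Sat Set.univ id φ (Fin.cons a v) := by
        intro a
        rw [sat_subst]
        have h2 : (fun j => Sum.elim (![a] : Fin 1 → ZFSet.{0}) id (σ j)) =
            (Fin.cons a v : Fin (n + 1) → ZFSet.{0}) := by
          funext j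
          refine Fin.cases ?_ (fun j => ?_) j
          · rfl
          · rfl
        rw [h2]
      obtain ⟨y, hy, h2⟩ := hX.wit (φ.subst σ) (over_subst _ _ hσ hφ) ⟨x, (hs' x).2 hs⟩
      exact ⟨_, ⟨y, hy, rfl⟩, (ih y hy).2 ((hs' y).1 h2)⟩

omit hX in
/-- The inverse of the collapse. -/
theorem exists_inv (X : Set ZFSet.{0}) : ∃ f : ZFSet.{0} → ZFSet.{0},
    ∀ a ∈ Mo X, f a ∈ X ∧ mos X (f a) = a := by
  have h : ∀ a : ZFSet.{0}, ∃ x : ZFSet.{0}, a ∈ Mo X → x ∈ X ∧ mos X x = a := by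
    intro a
    by_cases ha : a ∈ Mo X
    · obtain ⟨x, hx, hxa⟩ := ha
      exact ⟨x, fun _ => ⟨hx, hxa⟩⟩
    · exact ⟨∅, fun h => absurd h ha⟩
  choose f hf using h
  exact ⟨f, hf⟩

omit hX in
theorem tmap_congr {A B : Type*} {S : Set A} {f g : A → B} (h : ∀ a ∈ S, f a = g a) {n : ℕ}
    {s : Fin n ⊕ A} (hs : TOver S s) :
    (Sum.map id f s : Fin n ⊕ B) = (Sum.map id g s : Fin n ⊕ B) := by
  cases s with
  | inl i => rfl
  | inr a => exact congrArg Sum.inr (h a (hs a rfl))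

omit hX in
theorem map_congr' {A B : Type*} {S : Set A} {f g : A → B} (h : ∀ a ∈ S, f a = g a) :
    {n : ℕ} → (φ : Fml A n) → φ.Over S → φ.map f = φ.map g
  | _, .mem s t, hφ => by
    simp only [Pool.Agent.W868.Fml.map]
    rw [tmap_congr h hφ.1, tmap_congr h hφ.2]
  | _, .eq s t, hφ => by
    simp only [Pool.Agent.W868.Fml.map]
    rw [tmap_congr h hφ.1, tmap_congr h hφ.2]
  | _, .neg φ, hφ => by
    simp only [Pool.Agent.W868.Fml.map]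
    rw [map_congr' h φ hφ]
  | _, .and φ ψ, hφ => by
    simp only [Pool.Agent.W868.Fml.map]
    rw [map_congr' h φ hφ.1, map_congr' h ψ hφ.2]
  | _, .ex φ, hφ => by
    simp only [Pool.Agent.W868.Fml.map]
    rw [map_congr' h φ hφ]

omit hX in
/-- A formula over the collapsed model comes from a formula over the submodel. -/
theorem exists_fml {n : ℕ} (φ : Fml ZFSet.{0} n) (hφ : φ.Over (Mo X)) :
    ∃ ψ : Fml ZFSet.{0} n, ψ.Over X ∧ ψ.map (mos X) = φ := by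
  obtain ⟨f, hf⟩ := exists_inv X
  refine ⟨φ.map f, (over_map f φ).2 (Fml.Over.mono (fun a ha => (hf a ha).1) hφ), ?_⟩
  rw [Pool.Agent.W868.map_map]
  conv_rhs => rw [← Pool.Agent.W868.map_id' φ]
  exact map_congr' (fun a ha => (hf a ha).2) φ hφ

theorem sat_mos1 {φ : Fml ZFSet.{0} 1} (hφ : φ.Over X) {a : ZFSet.{0}} (ha : a ∈ X) :
    Sat (Mo X) id (φ.map (mos X)) ![mos X a] ↔ Sat Set.univ id φ ![a] := by
  rw [← sat_mos hX φ hφ ![a] (by intro i; fin_cases i; exact ha)]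
  have h1 : (fun i => mos X ((![a] : Fin 1 → ZFSet.{0}) i)) = ![mos X a] := by
    funext i
    fin_cases i
    rfl
  rw [h1]

theorem sat_mos2 {φ : Fml ZFSet.{0} 2} (hφ : φ.Over X) {a b : ZFSet.{0}} (ha : a ∈ X)
    (hb : b ∈ X) :
    Sat (Mo X) id (φ.map (mos X)) ![mos X a, mos X b] ↔ Sat Set.univ id φ ![a, b] := by
  rw [← sat_mos hX φ hφ ![a, b] (by intro i; fin_cases i; exacts [ha, hb])]
  have h1 : (fun i => mos X ((![a, b] : Fin 2 → ZFSet.{0}) i)) = ![mos X a, mos X b] := by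
    funext i
    fin_cases i <;> rfl
  rw [h1]

omit hX in
theorem dfn1 {φ : Fml ZFSet.{0} 1} (hφ : φ.Over X) {n : ℕ}
    {F : (Fin n → ZFSet.{0}) → ZFSet.{0}} (hF : DfnF X Set.univ F) :
    Dfn X Set.univ fun w => Sat Set.univ id φ ![F w] := by
  refine Dfn.comp1 (Q := fun a => Sat Set.univ id φ ![a]) ⟨φ, hφ, fun v _ => ?_⟩ hF
  have h2 : v = ![v 0] := by
    funext i
    fin_cases i
    rfl
  change Sat Set.univ id φ v ↔ Sat Set.univ id φ ![v 0]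
  rw [← h2]

omit hX in
theorem dfn2 {φ : Fml ZFSet.{0} 2} (hφ : φ.Over X) {n : ℕ}
    {F G : (Fin n → ZFSet.{0}) → ZFSet.{0}} (hF : DfnF X Set.univ F) (hG : DfnF X Set.univ G) :
    Dfn X Set.univ fun w => Sat Set.univ id φ ![F w, G w] := by
  refine Dfn.comp2 (Q := fun a b => Sat Set.univ id φ ![a, b]) ⟨φ, hφ, fun v _ => ?_⟩ hF hG
  have h2 : v = ![v 0, v 1] := by
    funext i
    fin_cases i <;> rfl
  change Sat Set.univ id φ v ↔ Sat Set.univ id φ ![v 0, v 1]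
  rw [← h2]

theorem mos_sub {x y : ZFSet.{0}} (hx : x ∈ X) (hy : y ∈ X) (h : mos X y ⊆ mos X x) :
    y ⊆ x := by
  intro a ha
  refine hX.all (Q := fun a => a ∈ y → a ∈ x)
    ((Dfn.mem (DfnF.proj 0) (dc hy)).imp (Dfn.mem (DfnF.proj 0) (dc hx))) ?_ a ha
  intro a haX ha
  exact (mos_mem hX haX hx).1 (h ((mos_mem hX haX hy).2 ha))

theorem isZF_Mo : IsZF (Mo X) where
  trans := trans_Mo hX
  pairing := by
    rintro _ ⟨x, hx, rfl⟩ _ ⟨y, hy, rfl⟩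
    exact ⟨_, upair_X hX hx hy, mos_upair hX hx hy⟩
  union := by
    rintro _ ⟨x, hx, rfl⟩
    have hB := isBase_univ
    refine ⟨_, hX.eq (Dfn.eq (DfnF.proj 0) (hB.sUnion' (dc hx))), ?_⟩
    ext z
    rw [ZFSet.mem_sUnion, mem_mos]
    constructor
    · rintro ⟨y, hy, hyX, rfl⟩
      obtain ⟨u, hu, hyu⟩ := ZFSet.mem_sUnion.1 hy
      obtain ⟨u, huX, h1, h2⟩ := hX.ex (Q := fun u => u ∈ x ∧ y ∈ u)
        ((Dfn.mem (DfnF.proj 0) (dc hx)).and (Dfn.mem (dc hyX) (DfnF.proj 0))) ⟨u, hu, hyu⟩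
      exact ⟨mos X u, (mos_mem hX huX hx).2 h1, (mos_mem hX hyX huX).2 h2⟩
    · rintro ⟨u, hu, hz⟩
      obtain ⟨u, hux, huX, rfl⟩ := mem_mos.1 hu
      obtain ⟨z, hzu, hzX, rfl⟩ := mem_mos.1 hz
      exact ⟨z, ZFSet.mem_sUnion.2 ⟨u, hux, hzu⟩, hzX, rfl⟩
  infinity := ⟨_, hX.om, mos_omega hX⟩
  power := by
    rintro _ ⟨x, hx, rfl⟩
    have hB := isBase_univ
    have hp : ZFSet.powerset x ∈ X := by
      have h1 : Dfn X Set.univ fun w : Fin 1 → ZFSet.{0} => ∀ z ∈ Set.univ, (z ∈ w 0 ↔ z ⊆ x) := by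
        apply Dfn.all
        exact (Dfn.mem (DfnF.proj 0) (DfnF.proj 1)).iff (hB.subset' (DfnF.proj 0) (dc hx))
      refine hX.eq (h1.congr fun w _ => ?_)
      constructor
      · intro h
        ext z
        rw [h z trivial, ZFSet.mem_powerset]
      · intro h z _
        have h2 : w 0 = ZFSet.powerset x := h
        rw [h2, ZFSet.mem_powerset]
    refine ⟨_, ⟨_, hp, rfl⟩, fun z => ?_⟩
    rw [mem_mos]
    constructor
    · rintro ⟨y, hy, hyX, rfl⟩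
      refine ⟨⟨y, hyX, rfl⟩, fun w hw => ?_⟩
      obtain ⟨w, hwy, hwX, rfl⟩ := mem_mos.1 hw
      exact (mos_mem hX hwX hx).2 (ZFSet.mem_powerset.1 hy hwy)
    · rintro ⟨⟨y, hyX, rfl⟩, h⟩
      exact ⟨y, ZFSet.mem_powerset.2 (mos_sub hX hx hyX h), hyX, rfl⟩
  separation := by
    rintro φ' hφ' _ ⟨x, hx, rfl⟩
    have hB := isBase_univ
    obtain ⟨φ, hφ, rfl⟩ := exists_fml φ' hφ'
    have hy : ZFSet.sep (fun z => Sat Set.univ id φ ![z]) x ∈ X := by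
      have h1 : Dfn X Set.univ fun w : Fin 1 → ZFSet.{0} =>
          ∀ z ∈ Set.univ, (z ∈ w 0 ↔ z ∈ x ∧ Sat Set.univ id φ ![z]) := by
        apply Dfn.all
        exact (Dfn.mem (DfnF.proj 0) (DfnF.proj 1)).iff
          ((Dfn.mem (DfnF.proj 0) (dc hx)).and (dfn1 hφ (DfnF.proj 0)))
      refine hX.eq (h1.congr fun w _ => ?_)
      constructor
      · intro h
        ext z
        rw [h z trivial, ZFSet.mem_sep]
      · intro h z _
        have h2 : w 0 = ZFSet.sep (fun z => Sat Set.univ id φ ![z]) x := h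
        rw [h2, ZFSet.mem_sep]
    refine ⟨_, ⟨_, hy, rfl⟩, fun z => ?_⟩
    rw [mem_mos, mem_mos]
    constructor
    · rintro ⟨y, hy, hyX, rfl⟩
      obtain ⟨h6, h7⟩ := ZFSet.mem_sep.1 hy
      exact ⟨⟨y, h6, hyX, rfl⟩, (sat_mos1 hX hφ hyX).2 h7⟩
    · rintro ⟨⟨y, hy, hyX, rfl⟩, h6⟩
      exact ⟨y, ZFSet.mem_sep.2 ⟨hy, (sat_mos1 hX hφ hyX).1 h6⟩, hyX, rfl⟩
  replacement := by
    rintro φ' hφ' _ ⟨x, hx, rfl⟩ hf
    have hB := isBase_univ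
    obtain ⟨φ, hφ, rfl⟩ := exists_fml φ' hφ'
    have h0 : ∀ z, z ∈ x → ∃ w ∈ Set.univ, Sat Set.univ id φ ![z, w] ∧
        ∀ w' ∈ Set.univ, Sat Set.univ id φ ![z, w'] → w' = w := by
      refine hX.all (Q := fun z => z ∈ x → ∃ w ∈ Set.univ, Sat Set.univ id φ ![z, w] ∧
        ∀ w' ∈ Set.univ, Sat Set.univ id φ ![z, w'] → w' = w) ?_ ?_
      · apply Dfn.imp
        · exact Dfn.mem (DfnF.proj 0) (dc hx)
        apply Dfn.ex
        apply Dfn.and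
        · exact dfn2 hφ (DfnF.proj 1) (DfnF.proj 0)
        apply Dfn.all
        apply Dfn.imp
        · exact dfn2 hφ (DfnF.proj 2) (DfnF.proj 0)
        · exact Dfn.eq (DfnF.proj 0) (DfnF.proj 1)
      · intro z hz hzx
        obtain ⟨w', ⟨⟨w, hw, rfl⟩, h1⟩, h2⟩ := hf (mos X z) ((mos_mem hX hz hx).2 hzx)
        refine ⟨w, trivial, (sat_mos2 hX hφ hz hw).1 h1, fun u _ => ?_⟩
        refine hX.all (Q := fun u => Sat Set.univ id φ ![z, u] → u = w) ?_ ?_ u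
        · apply Dfn.imp
          · exact dfn2 hφ (dc hz) (DfnF.proj 0)
          · exact Dfn.eq (DfnF.proj 0) (dc hw)
        · intro u hu h3
          exact (mos_inj hX hu hw).1 (h2 _ ⟨⟨u, hu, rfl⟩, (sat_mos2 hX hφ hz hu).2 h3⟩)
    choose! g hg1 hg2 hg3 using h0
    let Y : ZFSet.{0} := ZFSet.range fun z : {z // z ∈ x} => g z.1
    have hY : ∀ w, w ∈ Y ↔ ∃ z ∈ x, Sat Set.univ id φ ![z, w] := by
      intro w
      rw [ZFSet.mem_range]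
      constructor
      · rintro ⟨⟨z, hz⟩, rfl⟩
        exact ⟨z, hz, hg2 z hz⟩
      · rintro ⟨z, hz, h1⟩
        exact ⟨⟨z, hz⟩, (hg3 z hz w trivial h1).symm⟩
    have hYX : Y ∈ X := by
      have h1 : Dfn X Set.univ fun w : Fin 1 → ZFSet.{0} =>
          ∀ u ∈ Set.univ, (u ∈ w 0 ↔ ∃ z ∈ x, Sat Set.univ id φ ![z, u]) := by
        apply Dfn.all
        apply Dfn.iff
        · exact Dfn.mem (DfnF.proj 0) (DfnF.proj 1)
        · apply hB.bex (dc hx)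
          exact dfn2 hφ (DfnF.proj 0) (DfnF.proj 1)
      refine hX.eq (h1.congr fun w _ => ?_)
      constructor
      · intro h
        refine ZFSet.ext fun z => ?_
        rw [h z trivial, hY]
      · intro h z _
        have h2 : w 0 = Y := h
        rw [h2, hY]
    refine ⟨_, ⟨_, hYX, rfl⟩, fun w => ?_⟩
    rw [mem_mos]
    constructor
    · rintro ⟨u, hu, huX, rfl⟩
      refine ⟨⟨u, huX, rfl⟩, ?_⟩
      obtain ⟨z, hz, h1, h2⟩ := hX.ex (Q := fun z => z ∈ x ∧ Sat Set.univ id φ ![z, u])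
        ((Dfn.mem (DfnF.proj 0) (dc hx)).and (dfn2 hφ (DfnF.proj 0) (dc huX))) ((hY u).1 hu)
      exact ⟨mos X z, (mos_mem hX hz hx).2 h1, (sat_mos2 hX hφ hz huX).2 h2⟩
    · rintro ⟨⟨u, hu, rfl⟩, z, hz, h1⟩
      obtain ⟨z, hzx, hzX, rfl⟩ := mem_mos.1 hz
      exact ⟨u, (hY u).2 ⟨z, hzx, (sat_mos2 hX hφ hzX hu).1 h1⟩, hu, rfl⟩

theorem isZFC_Mo : IsZFC (Mo X) := by
  refine ⟨isZF_Mo hX, ?_⟩
  rintro _ ⟨Y, hY, rfl⟩ hne hdis
  have hB := isBase_univ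
  have h1 : ∀ y ∈ Y, ∃ z ∈ y, True := by
    refine hX.all (Q := fun y => y ∈ Y → ∃ z ∈ y, True) ?_ ?_
    · exact (Dfn.mem (DfnF.proj 0) (dc hY)).imp (hB.bex (DfnF.proj 0) (Dfn.prop True))
    · intro y hy hyY
      obtain ⟨z, hz⟩ := hne (mos X y) ((mos_mem hX hy hY).2 hyY)
      obtain ⟨z, hz, -, -⟩ := mem_mos.1 hz
      exact ⟨z, hz, trivial⟩
  have h2 : ∀ y ∈ Y, ∀ y' ∈ Y, ∀ z ∈ y, z ∈ y' → y = y' := by
    refine hX.all (Q := fun y => y ∈ Y → ∀ y' ∈ Y, ∀ z ∈ y, z ∈ y' → y = y') ?_ ?_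
    · apply Dfn.imp (Dfn.mem (DfnF.proj 0) (dc hY))
      apply hB.ball (dc hY)
      apply hB.ball (DfnF.proj 1)
      exact (Dfn.mem (DfnF.proj 0) (DfnF.proj 1)).imp (Dfn.eq (DfnF.proj 2) (DfnF.proj 1))
    intro y hy hyY
    refine hX.all (Q := fun y' => y' ∈ Y → ∀ z ∈ y, z ∈ y' → y = y') ?_ ?_
    · apply Dfn.imp (Dfn.mem (DfnF.proj 0) (dc hY))
      apply hB.ball (dc hy)
      exact (Dfn.mem (DfnF.proj 0) (DfnF.proj 1)).imp (Dfn.eq (dc hy) (DfnF.proj 1))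
    intro y' hy' hyY'
    refine hX.all (Q := fun z => z ∈ y → z ∈ y' → y = y') ?_ ?_
    · apply Dfn.imp (Dfn.mem (DfnF.proj 0) (dc hy))
      exact (Dfn.mem (DfnF.proj 0) (dc hy')).imp (Dfn.eq (dc hy) (dc hy'))
    intro z hz hzy hzy'
    have h3 := hdis (mos X y) ((mos_mem hX hy hY).2 hyY) (mos X y')
      ((mos_mem hX hy' hY).2 hyY') (mos X z) ((mos_mem hX hz hy).2 hzy)
      ((mos_mem hX hz hy').2 hzy')
    exact (mos_inj hX hy hy').1 h3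
  have h3 : ∃ c : ZFSet.{0}, ∀ y ∈ Y, ∃ z ∈ y, z ∈ c ∧ ∀ z' ∈ y, z' ∈ c → z' = z := by
    choose! f hf using h1
    refine ⟨ZFSet.range fun y : {y // y ∈ Y} => f y.1, fun y hy => ?_⟩
    refine ⟨f y, (hf y hy).1, ZFSet.mem_range.2 ⟨⟨y, hy⟩, rfl⟩, ?_⟩
    intro z' hz' hc
    obtain ⟨⟨y', hy'⟩, rfl⟩ := ZFSet.mem_range.1 hc
    have h3 := h2 y' hy' y hy (f y') (hf y' hy').1 hz'
    subst h3
    rfl
  obtain ⟨c, hc, h4⟩ := hX.ex (Q := fun c => ∀ y ∈ Y, ∃ z ∈ y, z ∈ c ∧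
      ∀ z' ∈ y, z' ∈ c → z' = z) (by
    apply hB.ball (dc hY)
    apply hB.bex (DfnF.proj 0)
    apply Dfn.and (Dfn.mem (DfnF.proj 0) (DfnF.proj 2))
    apply hB.ball (DfnF.proj 1)
    exact (Dfn.mem (DfnF.proj 0) (DfnF.proj 3)).imp (Dfn.eq (DfnF.proj 0) (DfnF.proj 1))) h3
  refine ⟨_, ⟨_, hc, rfl⟩, fun y hy => ?_⟩
  obtain ⟨y, hyY, hyX, rfl⟩ := mem_mos.1 hy
  obtain ⟨z, hz, h5, h6⟩ := hX.ex (Q := fun z => z ∈ y ∧ z ∈ c)
    ((Dfn.mem (DfnF.proj 0) (dc hyX)).and (Dfn.mem (DfnF.proj 0) (dc hc))) (by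
    obtain ⟨z, h5, h6, -⟩ := h4 y hyY
    exact ⟨z, h5, h6⟩)
  refine ⟨mos X z, ⟨(mos_mem hX hz hyX).2 h5, (mos_mem hX hz hc).2 h6⟩, ?_⟩
  rintro z' ⟨h7, h8⟩
  obtain ⟨z', h9, hz', rfl⟩ := mem_mos.1 h7
  rw [mos_mem hX hz' hc] at h8
  obtain ⟨w, h10, h11, h12⟩ := h4 y hyY
  rw [h12 z h5 h6, h12 z' h9 h8]

theorem countable_Mo : (Mo X).Countable := hX.cnt.image _

end Q207.AM
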