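import Pool.Agent.W868.Tool

/-!
# Countable sets that are closed under witnesses for countably many relations
-/

set_option autoImplicit false

namespace Q207.AM

open Pool.Agent.W868 (Fml Sat TOver tOver_inr over_iUnion countable_fml)

/-- Finite data with sets as parameters. -/
class Par (D : Type 1) where
  ps : D → Set ZFSet.{0}
  fin : ∀ d, (ps d).Finite
  cnt : ∀ X : Set ZFSet.{0}, X.Countable → {d | ps d ⊆ X}.Countable

open Par (ps)

instance : Par ZFSet.{0} where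
  ps x := {x}
  fin x := Set.finite_singleton x
  cnt X hX := hX.mono fun x hx => hx rfl

instance {D E : Type 1} [Par D] [Par E] : Par (D × E) where
  ps d := ps d.1 ∪ ps d.2
  fin d := (Par.fin d.1).union (Par.fin d.2)
  cnt X hX := by
    refine ((Par.cnt X hX (D := D)).prod (Par.cnt X hX (D := E))).mono ?_
    rintro ⟨d, e⟩ h
    exact ⟨fun x hx => h (Or.inl hx), fun x hx => h (Or.inr hx)⟩

/-- The parameters of a list. -/
def psL {D : Type 1} [Par D] (l : List D) : Set ZFSet.{0} := ⋃ d ∈ {d | d ∈ l}, ps d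

theorem psL_subset {D : Type 1} [Par D] {l : List D} {X : Set ZFSet.{0}} :
    psL l ⊆ X ↔ ∀ d ∈ l, ps d ⊆ X := by
  rw [psL, Set.iUnion₂_subset_iff]
  exact Iff.rfl

theorem countable_lists {α : Type*} {S : Set α} (hS : S.Countable) :
    {l : List α | ∀ x ∈ l, x ∈ S}.Countable := by
  have h1 := hS.to_subtype
  refine (Set.countable_range fun l : List S => l.map fun x => x.1).mono ?_
  intro l hl
  refine ⟨l.attach.map fun x => ⟨x.1, hl x.1 x.2⟩, ?_⟩
  simp

instance {D : Type 1} [Par D] : Par (List D) where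
  ps l := psL l
  fin l := l.finite_toSet.biUnion fun d _ => Par.fin d
  cnt X hX := by
    refine (countable_lists (Par.cnt X hX (D := D))).mono fun l hl => ?_
    exact psL_subset.1 hl

theorem ps_list {D : Type 1} [Par D] {l : List D} {X : Set ZFSet.{0}} :
    ps l ⊆ X ↔ ∀ d ∈ l, ps d ⊆ X := psL_subset

theorem ps_prod {D E : Type 1} [Par D] [Par E] {d : D × E} {X : Set ZFSet.{0}} :
    ps d ⊆ X ↔ ps d.1 ⊆ X ∧ ps d.2 ⊆ X := Set.union_subset_iff

theorem ps_set {x : ZFSet.{0}} {X : Set ZFSet.{0}} : ps x ⊆ X ↔ x ∈ X :=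
  Set.singleton_subset_iff

/-- The parameters of a term. -/
def pt {n : ℕ} : Fin n ⊕ ZFSet.{0} → Set ZFSet.{0}
  | .inl _ => ∅
  | .inr a => {a}

theorem tOver_iff {n : ℕ} {t : Fin n ⊕ ZFSet.{0}} {X : Set ZFSet.{0}} :
    TOver X t ↔ pt t ⊆ X := by
  cases t with
  | inl i => exact ⟨fun _ => Set.empty_subset _, fun _ => TOver.inl i⟩
  | inr a => rw [tOver_inr, pt, Set.singleton_subset_iff]

theorem pt_finite {n : ℕ} (t : Fin n ⊕ ZFSet.{0}) : (pt t).Finite := by
  cases t with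
  | inl i => exact Set.finite_empty
  | inr a => exact Set.finite_singleton a

/-- The parameters of a formula. -/
def pf : {n : ℕ} → Fml ZFSet.{0} n → Set ZFSet.{0}
  | _, .mem s t => pt s ∪ pt t
  | _, .eq s t => pt s ∪ pt t
  | _, .neg φ => pf φ
  | _, .and φ ψ => pf φ ∪ pf ψ
  | _, .ex φ => pf φ

theorem over_iff {X : Set ZFSet.{0}} : {n : ℕ} → {φ : Fml ZFSet.{0} n} →
    (φ.Over X ↔ pf φ ⊆ X)
  | _, .mem s t => by rw [Fml.Over, pf, Set.union_subset_iff, tOver_iff, tOver_iff]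
  | _, .eq s t => by rw [Fml.Over, pf, Set.union_subset_iff, tOver_iff, tOver_iff]
  | _, .neg φ => over_iff (φ := φ)
  | _, .and φ ψ => by
    rw [Fml.Over, pf, Set.union_subset_iff, over_iff (φ := φ), over_iff (φ := ψ)]
  | _, .ex φ => over_iff (φ := φ)

theorem pf_finite : {n : ℕ} → (φ : Fml ZFSet.{0} n) → (pf φ).Finite
  | _, .mem s t => (pt_finite s).union (pt_finite t)
  | _, .eq s t => (pt_finite s).union (pt_finite t)
  | _, .neg φ => pf_finite φ
  | _, .and φ ψ => (pf_finite φ).union (pf_finite ψ)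
  | _, .ex φ => pf_finite φ

instance {n : ℕ} : Par (Fml ZFSet.{0} n) where
  ps φ := pf φ
  fin φ := pf_finite φ
  cnt X hX := (countable_fml hX n).mono fun _ h => over_iff.2 h

theorem ps_fml {n : ℕ} {φ : Fml ZFSet.{0} n} {X : Set ZFSet.{0}} : ps φ ⊆ X ↔ φ.Over X :=
  over_iff.symm

/-! ### Hulls -/

/-- A finitary operator that preserves countable sets. -/
structure GoodOp (Φ : Set ZFSet.{0} → Set ZFSet.{0}) : Prop where
  cnt : ∀ X : Set ZFSet.{0}, X.Countable → (Φ X).Countable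
  fin : ∀ S : ℕ → Set ZFSet.{0}, Monotone S → Φ (⋃ n, S n) ⊆ ⋃ n, Φ (S n)

theorem exists_hull {𝒪 : Set (Set ZFSet.{0} → Set ZFSet.{0})} (h𝒪 : 𝒪.Countable)
    (hg : ∀ Φ ∈ 𝒪, GoodOp Φ) {X₀ : Set ZFSet.{0}} (h0 : X₀.Countable) :
    ∃ X, X.Countable ∧ X₀ ⊆ X ∧ ∀ Φ ∈ 𝒪, Φ X ⊆ X := by
  let S : ℕ → Set ZFSet.{0} := fun n => Nat.rec X₀ (fun _ Y => Y ∪ ⋃ Φ ∈ 𝒪, Φ Y) n
  have hS : ∀ n, S (n + 1) = S n ∪ ⋃ Φ ∈ 𝒪, Φ (S n) := fun n => rfl
  have hmono : Monotone S := monotone_nat_of_le_succ fun n x hx => Or.inl hx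
  have hcnt : ∀ n, (S n).Countable := by
    intro n
    induction n with
    | zero => exact h0
    | succ n ih =>
      rw [hS]
      exact ih.union (h𝒪.biUnion fun Φ hΦ => (hg Φ hΦ).cnt _ ih)
  refine ⟨⋃ n, S n, Set.countable_iUnion hcnt, fun x hx => Set.mem_iUnion.2 ⟨0, hx⟩, ?_⟩
  intro Φ hΦ x hx
  obtain ⟨n, hn⟩ := Set.mem_iUnion.1 ((hg Φ hΦ).fin S hmono hx)
  exact Set.mem_iUnion.2 ⟨n + 1, Or.inr (Set.mem_biUnion hΦ hn)⟩

theorem fin_sub {S : ℕ → Set ZFSet.{0}} (hS : Monotone S) {T : Set ZFSet.{0}} (hT : T.Finite)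
    (h : T ⊆ ⋃ n, S n) : ∃ n, T ⊆ S n := by
  induction T, hT using Set.Finite.induction_on with
  | empty => exact ⟨0, Set.empty_subset _⟩
  | @insert a T _ _ ih =>
    obtain ⟨n, hn⟩ := ih fun x hx => h (Or.inr hx)
    obtain ⟨m, hm⟩ := Set.mem_iUnion.1 (h (Or.inl rfl))
    refine ⟨max n m, ?_⟩
    rintro x (rfl | hx)
    · exact hS (le_max_right _ _) hm
    · exact hS (le_max_left _ _) (hn hx)

open Classical in
/-- The parameters of a witness. -/
noncomputable def wps {D E : Type 1} [Par E] (R : D → E → Prop) (d : D) : Set ZFSet.{0} :=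
  if h : ∃ e, R d e then ps h.choose else ∅

/-- The operator that adds witnesses for the relation. -/
noncomputable def opR {D E : Type 1} [Par D] [Par E] (R : D → E → Prop) (X : Set ZFSet.{0}) :
    Set ZFSet.{0} := ⋃ d ∈ {d | ps d ⊆ X}, wps R d

theorem wps_finite {D E : Type 1} [Par E] (R : D → E → Prop) (d : D) : (wps R d).Finite := by
  unfold wps
  split_ifs with h
  · exact Par.fin _
  · exact Set.finite_empty

theorem goodOp {D E : Type 1} [Par D] [Par E] (R : D → E → Prop) : GoodOp (opR R) := by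
  constructor
  · intro X hX
    exact (Par.cnt X hX).biUnion fun d _ => (wps_finite R d).countable
  · intro S hS x hx
    obtain ⟨d, hd, h⟩ := Set.mem_iUnion₂.1 hx
    obtain ⟨n, hn⟩ := fin_sub hS (Par.fin d) hd
    exact Set.mem_iUnion.2 ⟨n, Set.mem_biUnion hn h⟩

theorem wit_of {D E : Type 1} [Par D] [Par E] {R : D → E → Prop} {X : Set ZFSet.{0}}
    (hX : opR R X ⊆ X) {d : D} (hd : ps d ⊆ X) (h : ∃ e, R d e) : ∃ e, ps e ⊆ X ∧ R d e := by
  refine ⟨h.choose, fun x hx => hX (Set.mem_biUnion hd ?_), h.choose_spec⟩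
  rw [wps, dif_pos h]
  exact hx

end Q207.AM
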