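import Pool.Agent.Q207.AM.Game
import Pool.Agent.Q207.CF.Names

/-!
# Rules for generic filters
-/

set_option autoImplicit false

namespace Q207.AM

open ZFSet (pair)
open Pool.Agent.W868 (Fml Sat TOver tOver_inr sat_subst over_subst)
open Q207.CF (IsName val mem_val Ext IsFilter IsDense IsDefinable IsGeneric wf_name isName_iff)
open Pool.Agent.W868.Fml (depth)

/-! ### Letters -/

/-- The signed statements: `g b p` is the statement `p ∈ G`, `f b χ` the sentence `χ` about names;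
the sign is `b`. -/
inductive Lt : Type 1
  | g (b : Bool) (p : ZFSet.{0})
  | f (b : Bool) (χ : Fml ZFSet.{0} 0)

/-- Change of the sign. -/
def Lt.neg : Lt → Lt
  | .g b p => .g (!b) p
  | .f b χ => .f (!b) χ

/-- The names in `N`. -/
def Nm (N P : Set ZFSet.{0}) : Set ZFSet.{0} := {σ | σ ∈ N ∧ IsName P σ}

/-- The letter makes sense. -/
def Ok (N P : Set ZFSet.{0}) : Lt → Prop
  | .g _ p => p ∈ P
  | .f _ χ => χ.Over (Nm N P)

/-- The value of a term without variables. -/
def tm (t : Fin 0 ⊕ ZFSet.{0}) : ZFSet.{0} := Sum.elim (fun i => i.elim0) id t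

/-- The instance of a formula. -/
def inst (ψ : Fml ZFSet.{0} 1) (a : ZFSet.{0}) : Fml ZFSet.{0} 0 := ψ.subst fun _ => Sum.inr a

/-- The sign of a sentence. -/
def sg : Fml ZFSet.{0} 0 → Bool
  | .eq _ _ => false
  | _ => true

/-- The sentence with the sign `sg` is equivalent to a disjunction of conjunctions of simpler
letters. -/
def Dis (N P : Set ZFSet.{0}) : Fml ZFSet.{0} 0 → Set (List Lt)
  | .mem s t => {l | ∃ π e, pair π e ∈ tm t ∧ l = [.g true e, .f true (.eq s (Sum.inr π))]}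
  | .eq s t => {l | (∃ π e, pair π e ∈ tm s ∧ l = [.g true e, .f false (.mem (Sum.inr π) t)]) ∨
      (∃ π e, pair π e ∈ tm t ∧ l = [.g true e, .f false (.mem (Sum.inr π) s)])}
  | .neg χ => {[.f false χ]}
  | .and χ ξ => {[.f true χ, .f true ξ]}
  | .ex ψ => {l | ∃ a ∈ Nm N P, l = [.f true (inst ψ a)]}

/-! ### Rules -/

/-- The codes of the rules. -/
inductive Ru : Type 1
  | con (B : Lt)
  | dec (B : Lt)
  | dir (p q : ZFSet.{0})
  | up (p q : ZFSet.{0})
  | den (ψ : Fml ZFSet.{0} 1)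
  | d1 (χ : Fml ZFSet.{0} 0)
  | d2 (χ : Fml ZFSet.{0} 0) (l : List Lt)

/-- The premises. -/
def pre : Ru → List Lt
  | .con B => [B, B.neg]
  | .dec _ => []
  | .dir p q => [.g true p, .g true q]
  | .up p _ => [.g true p]
  | .den _ => []
  | .d1 χ => [.f (sg χ) χ]
  | .d2 χ _ => [.f (!sg χ) χ]

/-- The answers. -/
def ans (N P : Set ZFSet.{0}) (le : ZFSet.{0} → ZFSet.{0} → Prop) : Ru → Set (List Lt)
  | .con _ => ∅
  | .dec B => {l | l = [B] ∨ l = [B.neg]}
  | .dir p q => {l | ∃ r ∈ P, le r p ∧ le r q ∧ l = [.g true r]}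
  | .up _ q => {l | l = [.g true q]}
  | .den ψ => {l | ∃ r ∈ N, Sat N id ψ ![r] ∧ l = [.g true r]}
  | .d1 χ => Dis N P χ
  | .d2 _ l => {l' | ∃ B ∈ l, l' = [B.neg]}

/-- The rule is valid. -/
def Vl (N P : Set ZFSet.{0}) (le : ZFSet.{0} → ZFSet.{0} → Prop) : Ru → Prop
  | .con B => Ok N P B
  | .dec B => Ok N P B
  | .dir p q => p ∈ P ∧ q ∈ P
  | .up p q => p ∈ P ∧ q ∈ P ∧ le p q
  | .den ψ => ψ.Over N ∧ IsDense P le {x | x ∈ N ∧ Sat N id ψ ![x]}
  | .d1 χ => χ.Over (Nm N P)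
  | .d2 χ l => χ.Over (Nm N P) ∧ l ∈ Dis N P χ

/-- The truth of a letter in the extension by `G`. -/
def Tr (N P G : Set ZFSet.{0}) : Lt → Prop
  | .g b p => (p ∈ G ↔ b = true)
  | .f b χ => (Sat (Ext N P G) (val G) χ Fin.elim0 ↔ b = true)

theorem neg_neg' (B : Lt) : B.neg.neg = B := by
  cases B <;> simp [Lt.neg]

theorem tr_neg {N P G : Set ZFSet.{0}} (B : Lt) : Tr N P G B.neg ↔ ¬ Tr N P G B := by
  cases B with
  | g b p => cases b <;> simp [Tr, Lt.neg]
  | f b p => cases b <;> simp [Tr, Lt.neg]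

theorem ok_neg {N P : Set ZFSet.{0}} {B : Lt} : Ok N P B.neg ↔ Ok N P B := by
  cases B <;> exact Iff.rfl

theorem over_inst {S : Set ZFSet.{0}} {ψ : Fml ZFSet.{0} 1} (h : ψ.Over S) {a : ZFSet.{0}}
    (ha : a ∈ S) : (inst ψ a).Over S := over_subst _ _ (fun _ => tOver_inr.2 ha) h

theorem tm_mem {S : Set ZFSet.{0}} {t : Fin 0 ⊕ ZFSet.{0}} (h : TOver S t) : tm t ∈ S := by
  cases t with
  | inl i => exact i.elim0
  | inr a => exact h a rfl

theorem inr_tm (t : Fin 0 ⊕ ZFSet.{0}) : (Sum.inr (tm t) : Fin 0 ⊕ ZFSet.{0}) = t := by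
  cases t with
  | inl i => exact i.elim0
  | inr a => rfl

theorem elim_tm (G : Set ZFSet.{0}) (v : Fin 0 → ZFSet.{0}) (t : Fin 0 ⊕ ZFSet.{0}) :
    Sum.elim v (val G) t = val G (tm t) := by
  cases t with
  | inl i => exact i.elim0
  | inr a => rfl

section

variable {N P : Set ZFSet.{0}} (hN : ∀ x ∈ N, ∀ y ∈ x, y ∈ N)

include hN

theorem nm_pair {σ π e : ZFSet.{0}} (h : σ ∈ Nm N P) (h' : pair π e ∈ σ) :
    π ∈ Nm N P ∧ e ∈ P := by
  obtain ⟨τ, p, hp, h1, h2⟩ := isName_iff.1 h.2 _ h'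
  obtain ⟨rfl, rfl⟩ := ZFSet.pair_inj.1 h1
  refine ⟨⟨?_, h2⟩, hp⟩
  have h3 := hN _ h.1 _ h'
  have h4 : ({π} : ZFSet.{0}) ∈ N := hN _ h3 _ (by simp [pair])
  exact hN _ h4 _ (ZFSet.mem_singleton.2 rfl)

/-- The letters in `Dis` make sense. -/
theorem ok_dis {χ : Fml ZFSet.{0} 0} (hχ : χ.Over (Nm N P)) {l : List Lt} (hl : l ∈ Dis N P χ) :
    ∀ B ∈ l, Ok N P B := by
  cases χ with
  | mem s t =>
    obtain ⟨π, e, h, rfl⟩ := hl
    obtain ⟨h1, h2⟩ := nm_pair hN (tm_mem hχ.2) h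
    intro B hB
    simp only [List.mem_cons, List.not_mem_nil, or_false] at hB
    rcases hB with rfl | rfl
    · exact h2
    · exact ⟨hχ.1, tOver_inr.2 h1⟩
  | eq s t =>
    rcases hl with ⟨π, e, h, rfl⟩ | ⟨π, e, h, rfl⟩
    · obtain ⟨h1, h2⟩ := nm_pair hN (tm_mem hχ.1) h
      intro B hB
      simp only [List.mem_cons, List.not_mem_nil, or_false] at hB
      rcases hB with rfl | rfl
      · exact h2
      · exact ⟨tOver_inr.2 h1, hχ.2⟩
    · obtain ⟨h1, h2⟩ := nm_pair hN (tm_mem hχ.2) h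
      intro B hB
      simp only [List.mem_cons, List.not_mem_nil, or_false] at hB
      rcases hB with rfl | rfl
      · exact h2
      · exact ⟨tOver_inr.2 h1, hχ.1⟩
  | neg χ =>
    rw [show l = [.f false χ] from hl]
    intro B hB
    rw [List.mem_singleton.1 hB]
    exact hχ
  | and χ ξ =>
    rw [show l = [.f true χ, .f true ξ] from hl]
    intro B hB
    simp only [List.mem_cons, List.not_mem_nil, or_false] at hB
    rcases hB with rfl | rfl
    · exact hχ.1
    · exact hχ.2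
  | ex ψ =>
    obtain ⟨a, ha, rfl⟩ := hl
    intro B hB
    rw [List.mem_singleton.1 hB]
    exact over_inst (ψ := ψ) hχ ha

/-- The local truth definition. -/
theorem dis_iff {G : Set ZFSet.{0}} {χ : Fml ZFSet.{0} 0} (hχ : χ.Over (Nm N P)) :
    Tr N P G (.f (sg χ) χ) ↔ ∃ l ∈ Dis N P χ, ∀ B ∈ l, Tr N P G B := by
  cases χ with
  | mem s t =>
    simp only [Tr, sg, iff_true, Sat, elim_tm, Dis]
    rw [mem_val]
    constructor
    · rintro ⟨π, e, he, h1, h2⟩
      refine ⟨_, ⟨π, e, h1, rfl⟩, fun B hB => ?_⟩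
      simp only [List.mem_cons, List.not_mem_nil, or_false] at hB
      rcases hB with rfl | rfl
      · simp only [Tr, iff_true]
        exact he
      · simp only [Tr, iff_true, Sat, elim_tm]
        exact h2
    · rintro ⟨_, ⟨π, e, h1, rfl⟩, h2⟩
      refine ⟨π, e, ?_, h1, ?_⟩
      · have h3 := h2 (.g true e) (by simp)
        simpa only [Tr, iff_true] using h3
      · have h3 := h2 (.f true (.eq s (Sum.inr π))) (by simp)
        simp only [Tr, iff_true, Sat, elim_tm] at h3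
        exact h3
  | eq s t =>
    simp only [Tr, sg, Sat, elim_tm, Dis]
    constructor
    · intro h
      have h1 : ¬ val G (tm s) = val G (tm t) := fun h' => by simpa using h.1 h'
      have h2 : (∃ z ∈ val G (tm s), z ∉ val G (tm t)) ∨ ∃ z ∈ val G (tm t), z ∉ val G (tm s) := by
        by_contra h3
        push Not at h3
        exact h1 (ZFSet.ext fun z => ⟨fun hz => h3.1 z hz, fun hz => h3.2 z hz⟩)
      rcases h2 with ⟨z, hz, h3⟩ | ⟨z, hz, h3⟩
      · obtain ⟨π, e, he, h4, rfl⟩ := mem_val.1 hz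
        refine ⟨_, Or.inl ⟨π, e, h4, rfl⟩, fun B hB => ?_⟩
        simp only [List.mem_cons, List.not_mem_nil, or_false] at hB
        rcases hB with rfl | rfl
        · simp only [Tr, iff_true]
          exact he
        · simp only [Tr, Sat, elim_tm, Bool.false_eq_true, iff_false]
          exact h3
      · obtain ⟨π, e, he, h4, rfl⟩ := mem_val.1 hz
        refine ⟨_, Or.inr ⟨π, e, h4, rfl⟩, fun B hB => ?_⟩
        simp only [List.mem_cons, List.not_mem_nil, or_false] at hB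
        rcases hB with rfl | rfl
        · simp only [Tr, iff_true]
          exact he
        · simp only [Tr, Sat, elim_tm, Bool.false_eq_true, iff_false]
          exact h3
    · rintro ⟨_, ⟨π, e, h1, rfl⟩ | ⟨π, e, h1, rfl⟩, h2⟩
      · have h3 := h2 (.g true e) (by simp)
        have h4 := h2 (.f false (.mem (Sum.inr π) t)) (by simp)
        simp only [Tr, iff_true, Sat, elim_tm, Bool.false_eq_true, iff_false] at h3 h4
        simp only [Bool.false_eq_true, iff_false]
        intro h5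
        refine h4 ?_
        rw [← h5]
        exact mem_val.2 ⟨π, e, h3, h1, rfl⟩
      · have h3 := h2 (.g true e) (by simp)
        have h4 := h2 (.f false (.mem (Sum.inr π) s)) (by simp)
        simp only [Tr, iff_true, Sat, elim_tm, Bool.false_eq_true, iff_false] at h3 h4
        simp only [Bool.false_eq_true, iff_false]
        intro h5
        refine h4 ?_
        rw [h5]
        exact mem_val.2 ⟨π, e, h3, h1, rfl⟩
  | neg χ =>
    simp only [Tr, sg, iff_true, Sat, Dis, Set.mem_singleton_iff, exists_eq_left,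
      List.mem_singleton, forall_eq, Bool.false_eq_true, iff_false]
  | and χ ξ =>
    simp only [Tr, sg, iff_true, Sat, Dis, Set.mem_singleton_iff, exists_eq_left]
    constructor
    · intro h B hB
      simp only [List.mem_cons, List.not_mem_nil, or_false] at hB
      rcases hB with rfl | rfl
      · simp only [Tr, iff_true]
        exact h.1
      · simp only [Tr, iff_true]
        exact h.2
    · intro h
      have h3 := h (.f true χ) (by simp)
      have h4 := h (.f true ξ) (by simp)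
      simp only [Tr, iff_true] at h3 h4
      exact ⟨h3, h4⟩
  | ex ψ =>
    have h1 : ∀ a, Sat (Ext N P G) (val G) (inst ψ a) Fin.elim0 ↔
        Sat (Ext N P G) (val G) ψ (Fin.cons (val G a) Fin.elim0) := by
      intro a
      rw [inst, sat_subst]
      have h2 : (fun k : Fin 1 => Sum.elim (Fin.elim0 : Fin 0 → ZFSet.{0}) (val G)
          ((fun _ => Sum.inr a : Fin 1 → Fin 0 ⊕ ZFSet.{0}) k)) =
          (Fin.cons (val G a) Fin.elim0 : Fin 1 → ZFSet.{0}) := by
        funext k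
        fin_cases k
        rfl
      rw [h2]
    simp only [Tr, sg, iff_true, Sat, Dis]
    constructor
    · rintro ⟨x, ⟨a, ha, hn, rfl⟩, h2⟩
      refine ⟨_, ⟨a, ⟨ha, hn⟩, rfl⟩, fun B hB => ?_⟩
      rw [List.mem_singleton.1 hB]
      simp only [Tr, iff_true]
      exact (h1 a).2 h2
    · rintro ⟨_, ⟨a, ha, rfl⟩, h2⟩
      have h3 := h2 (.f true (inst ψ a)) (by simp)
      simp only [Tr, iff_true] at h3
      exact ⟨val G a, ⟨a, ha.1, ha.2, rfl⟩, (h1 a).1 h3⟩

/-- Generic filters satisfy the rules. -/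
theorem mod_of_gen {le : ZFSet.{0} → ZFSet.{0} → Prop} {G : Set ZFSet.{0}}
    (hG : IsGeneric N N P le G) :
    IsMod {c | Vl N P le c} pre (ans N P le) {B | Tr N P G B} := by
  obtain ⟨⟨hsub, hne, hup, hdir⟩, hgen⟩ := hG
  intro c hc hp
  have hp' : ∀ x ∈ pre c, Tr N P G x := hp
  have hc' : Vl N P le c := hc
  clear hp hc
  have one : ∀ B : Lt, Tr N P G B → ∀ x ∈ [B], x ∈ {B | Tr N P G B} := by
    intro B hB x hx
    rw [List.mem_singleton.1 hx]
    exact hB
  cases c with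
  | con B =>
    have h1 : Tr N P G B := hp' B (by simp [pre])
    have h2 : Tr N P G B.neg := hp' B.neg (by simp [pre])
    exact absurd h1 ((tr_neg B).1 h2)
  | dec B =>
    by_cases h : Tr N P G B
    · exact ⟨[B], Or.inl rfl, one _ h⟩
    · exact ⟨[B.neg], Or.inr rfl, one _ ((tr_neg B).2 h)⟩
  | dir p q =>
    have h1 : Tr N P G (.g true p) := hp' (.g true p) (by simp [pre])
    have h2 : Tr N P G (.g true q) := hp' (.g true q) (by simp [pre])
    simp only [Tr, iff_true] at h1 h2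
    obtain ⟨r, hr, h3, h4⟩ := hdir p h1 q h2
    refine ⟨_, ⟨r, hsub hr, h3, h4, rfl⟩, one _ ?_⟩
    simpa only [Tr, iff_true] using hr
  | up p q =>
    have h1 : Tr N P G (.g true p) := hp' (.g true p) (by simp [pre])
    simp only [Tr, iff_true] at h1
    obtain ⟨hc1, hc2, hc3⟩ := hc'
    refine ⟨_, rfl, one _ ?_⟩
    simpa only [Tr, iff_true] using hup p h1 q hc2 hc3
  | den ψ =>
    obtain ⟨hc1, hc2⟩ := hc'
    obtain ⟨r, hr, hrG⟩ := hgen _ ⟨ψ, hc1, rfl⟩ hc2
    refine ⟨_, ⟨r, hr.1, hr.2, rfl⟩, one _ ?_⟩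
    simpa only [Tr, iff_true] using hrG
  | d1 χ =>
    have h1 : Tr N P G (.f (sg χ) χ) := hp' (.f (sg χ) χ) (by simp [pre])
    exact (dis_iff hN hc').1 h1
  | d2 χ l =>
    have h1 : Tr N P G (Lt.neg (.f (sg χ) χ)) := hp' (.f (!sg χ) χ) (by simp [pre])
    obtain ⟨hc1, hc2⟩ := hc'
    rw [tr_neg, dis_iff hN hc1] at h1
    push Not at h1
    obtain ⟨B, hB, h2⟩ := h1 l hc2
    exact ⟨[B.neg], ⟨B, hB, rfl⟩, one _ ((tr_neg B).2 h2)⟩

end

/-! ### Models of the rules -/

theorem depth_subst {A : Type*} : {n m : ℕ} → (φ : Fml A n) → (σ : Fin n → Fin m ⊕ A) →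
    (φ.subst σ).depth = φ.depth
  | _, _, .mem _ _, _ => rfl
  | _, _, .eq _ _, _ => rfl
  | _, _, .neg φ, σ => by
    simp only [Pool.Agent.W868.Fml.subst, Fml.depth, depth_subst φ]
  | _, _, .and φ ψ, σ => by
    simp only [Pool.Agent.W868.Fml.subst, Fml.depth, depth_subst φ, depth_subst ψ]
  | _, _, .ex φ, σ => by
    simp only [Pool.Agent.W868.Fml.subst, Fml.depth, depth_subst φ]

section

variable {N P : Set ZFSet.{0}} (hN : ∀ x ∈ N, ∀ y ∈ x, y ∈ N)
  {le : ZFSet.{0} → ZFSet.{0} → Prop} {T : Set Lt}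
  (hT : IsMod {c | Vl N P le c} pre (ans N P le) T)

include hT

theorem mod_neg {B : Lt} (hB : Ok N P B) : B.neg ∈ T ↔ B ∉ T := by
  constructor
  · intro h1 h2
    obtain ⟨l, hl, -⟩ := hT (.con B) hB (fun x hx => by
      simp only [pre, List.mem_cons, List.not_mem_nil, or_false] at hx
      rcases hx with rfl | rfl
      · exact h2
      · exact h1)
    exact hl
  · intro h1
    obtain ⟨l, hl, h2⟩ := hT (.dec B) hB (fun x hx => by simp [pre] at hx)
    rcases hl with rfl | rfl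
    · exact absurd (h2 B (by simp)) h1
    · exact h2 _ (by simp)

include hN in
theorem mod_dis {χ : Fml ZFSet.{0} 0} (hχ : χ.Over (Nm N P)) :
    Lt.f (sg χ) χ ∈ T ↔ ∃ l ∈ Dis N P χ, ∀ B ∈ l, B ∈ T := by
  constructor
  · intro h
    obtain ⟨l, hl, h2⟩ := hT (.d1 χ) hχ (fun x hx => by
      simp only [pre, List.mem_singleton] at hx
      rw [hx]
      exact h)
    exact ⟨l, hl, h2⟩
  · rintro ⟨l, hl, h⟩
    by_contra h1
    have h2 := (mod_neg hT (B := .f (sg χ) χ) hχ).2 h1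
    obtain ⟨l', ⟨B, hB, rfl⟩, h3⟩ := hT (.d2 χ l) ⟨hχ, hl⟩ (fun x hx => by
      simp only [pre, List.mem_singleton] at hx
      rw [hx]
      exact h2)
    have h4 := h3 _ (List.mem_singleton.2 rfl)
    exact (mod_neg hT (ok_dis hN hχ hl B hB)).1 h4 (h B hB)

/-- The filter that is given by a model of the rules. -/
def GT (P : Set ZFSet.{0}) (T : Set Lt) : Set ZFSet.{0} := {p | p ∈ P ∧ Lt.g true p ∈ T}

theorem mod_g {b : Bool} {p : ZFSet.{0}} (hp : p ∈ P) :
    Lt.g b p ∈ T ↔ Tr N P (GT P T) (.g b p) := by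
  have h1 : Lt.g true p ∈ T ↔ p ∈ GT P T := ⟨fun h => ⟨hp, h⟩, fun h => h.2⟩
  cases b with
  | true =>
    simp only [Tr, iff_true]
    exact h1
  | false =>
    have h2 := mod_neg hT (B := .g true p) hp
    simp only [Tr, Bool.false_eq_true, iff_false]
    rw [← h1]
    exact h2

/-- If the letter with sign `sg` is evaluated correctly then so are both signs. -/
theorem mod_both {G : Set ZFSet.{0}} {χ : Fml ZFSet.{0} 0} (hχ : χ.Over (Nm N P))
    (h : Lt.f (sg χ) χ ∈ T ↔ Tr N P G (.f (sg χ) χ)) (b : Bool) :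
    Lt.f b χ ∈ T ↔ Tr N P G (.f b χ) := by
  by_cases hb : b = sg χ
  · rw [hb]
    exact h
  · have h1 : Lt.f b χ = Lt.neg (.f (sg χ) χ) := by
      have : b = !sg χ := by
        cases b <;> cases h2 : sg χ <;> simp_all
      rw [this]
      rfl
    rw [h1, tr_neg, mod_neg hT (B := .f (sg χ) χ) hχ, h]

include hN in
theorem mod_atom : ∀ σ τ : ZFSet.{0}, σ ∈ Nm N P → τ ∈ Nm N P → ∀ b,
    (Lt.f b (.eq (Sum.inr σ) (Sum.inr τ)) ∈ T ↔
      Tr N P (GT P T) (.f b (.eq (Sum.inr σ) (Sum.inr τ)))) ∧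
    (Lt.f b (.mem (Sum.inr σ) (Sum.inr τ)) ∈ T ↔
      Tr N P (GT P T) (.f b (.mem (Sum.inr σ) (Sum.inr τ)))) := by
  intro σ τ
  refine Sym2.GameAdd.induction (C := fun σ τ => σ ∈ Nm N P → τ ∈ Nm N P → ∀ b,
    (Lt.f b (.eq (Sum.inr σ) (Sum.inr τ)) ∈ T ↔
      Tr N P (GT P T) (.f b (.eq (Sum.inr σ) (Sum.inr τ)))) ∧
    (Lt.f b (.mem (Sum.inr σ) (Sum.inr τ)) ∈ T ↔
      Tr N P (GT P T) (.f b (.mem (Sum.inr σ) (Sum.inr τ))))) wf_name ?_ σ τ
  intro σ τ ih hσ hτ b
  constructor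
  · have hχ : (Fml.eq (Sum.inr σ) (Sum.inr τ) : Fml ZFSet.{0} 0).Over (Nm N P) :=
      ⟨tOver_inr.2 hσ, tOver_inr.2 hτ⟩
    refine mod_both hT hχ ?_ b
    rw [mod_dis hN hT hχ, dis_iff hN hχ]
    refine exists_congr fun l => and_congr_right fun hl => forall_congr' fun B =>
      forall_congr' fun hB => ?_
    rcases hl with ⟨π, e, h, rfl⟩ | ⟨π, e, h, rfl⟩
    · obtain ⟨h1, h2⟩ := nm_pair hN hσ h
      simp only [List.mem_cons, List.not_mem_nil, or_false] at hB
      rcases hB with rfl | rfl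
      · exact mod_g hT h2
      · exact (ih π τ (Sym2.GameAdd.fst ⟨e, h⟩) h1 hτ false).2
    · obtain ⟨h1, h2⟩ := nm_pair hN hτ h
      simp only [List.mem_cons, List.not_mem_nil, or_false] at hB
      rcases hB with rfl | rfl
      · exact mod_g hT h2
      · exact (ih π σ (Sym2.GameAdd.fst_snd ⟨e, h⟩) h1 hσ false).2
  · have hχ : (Fml.mem (Sum.inr σ) (Sum.inr τ) : Fml ZFSet.{0} 0).Over (Nm N P) :=
      ⟨tOver_inr.2 hσ, tOver_inr.2 hτ⟩
    refine mod_both hT hχ ?_ b
    rw [mod_dis hN hT hχ, dis_iff hN hχ]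
    refine exists_congr fun l => and_congr_right fun hl => forall_congr' fun B =>
      forall_congr' fun hB => ?_
    obtain ⟨π, e, h, rfl⟩ := hl
    obtain ⟨h1, h2⟩ := nm_pair hN hτ h
    simp only [List.mem_cons, List.not_mem_nil, or_false] at hB
    rcases hB with rfl | rfl
    · exact mod_g hT h2
    · exact (ih σ π (Sym2.GameAdd.snd ⟨e, h⟩) hσ h1 true).1

include hN in
theorem mod_f (n : ℕ) : ∀ χ : Fml ZFSet.{0} 0, χ.depth ≤ n → χ.Over (Nm N P) → ∀ b,
    (Lt.f b χ ∈ T ↔ Tr N P (GT P T) (.f b χ)) := by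
  induction n with
  | zero =>
    intro χ hd hχ b
    cases χ with
    | mem s t =>
      have h1 := (mod_atom hN hT (tm s) (tm t) (tm_mem hχ.1) (tm_mem hχ.2) b).2
      rwa [inr_tm, inr_tm] at h1
    | eq s t =>
      have h1 := (mod_atom hN hT (tm s) (tm t) (tm_mem hχ.1) (tm_mem hχ.2) b).1
      rwa [inr_tm, inr_tm] at h1
    | neg χ => exact absurd hd (by simp [Fml.depth])
    | and χ ξ => exact absurd hd (by simp [Fml.depth])
    | ex χ => exact absurd hd (by simp [Fml.depth])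
  | succ n ih =>
    intro χ hd hχ b
    cases χ with
    | mem s t => exact ih _ (Nat.zero_le _) hχ b
    | eq s t => exact ih _ (Nat.zero_le _) hχ b
    | neg χ =>
      refine mod_both hT hχ ?_ b
      rw [mod_dis hN hT hχ, dis_iff hN hχ]
      refine exists_congr fun l => and_congr_right fun hl => forall_congr' fun B =>
        forall_congr' fun hB => ?_
      rw [show l = [.f false χ] from hl] at hB
      rw [List.mem_singleton.1 hB]
      refine ih χ ?_ hχ _
      simp only [Fml.depth] at hd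
      omega
    | and χ ξ =>
      refine mod_both hT hχ ?_ b
      rw [mod_dis hN hT hχ, dis_iff hN hχ]
      refine exists_congr fun l => and_congr_right fun hl => forall_congr' fun B =>
        forall_congr' fun hB => ?_
      rw [show l = [.f true χ, .f true ξ] from hl] at hB
      simp only [Fml.depth] at hd
      simp only [List.mem_cons, List.not_mem_nil, or_false] at hB
      rcases hB with rfl | rfl
      · refine ih χ ?_ hχ.1 _
        omega
      · refine ih ξ ?_ hχ.2 _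
        omega
    | ex ψ =>
      refine mod_both hT hχ ?_ b
      rw [mod_dis hN hT hχ, dis_iff hN hχ]
      refine exists_congr fun l => and_congr_right fun hl => forall_congr' fun B =>
        forall_congr' fun hB => ?_
      obtain ⟨a, ha, rfl⟩ := hl
      rw [List.mem_singleton.1 hB]
      refine ih _ ?_ (over_inst (ψ := ψ) hχ ha) _
      rw [inst, depth_subst]
      simp only [Fml.depth] at hd
      omega

include hN in
/-- All letters are evaluated correctly. -/
theorem mod_tr {B : Lt} (hB : Ok N P B) : B ∈ T ↔ Tr N P (GT P T) B := by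
  cases B with
  | g b p => exact mod_g hT hB
  | f b χ => exact mod_f hN hT _ χ le_rfl hB b

/-- The filter is generic. -/
theorem gen_of_mod {p : ZFSet.{0}} (hp : p ∈ P) (hp' : Lt.g true p ∈ T) :
    IsGeneric N N P le (GT P T) := by
  refine ⟨⟨fun x hx => hx.1, ⟨p, hp, hp'⟩, ?_, ?_⟩, ?_⟩
  · rintro q ⟨hq, hq'⟩ r hr hqr
    obtain ⟨l, hl, h⟩ := hT (.up q r) ⟨hq, hr, hqr⟩ (fun x hx => by
      simp only [pre, List.mem_singleton] at hx
      rw [hx]
      exact hq')
    rw [show l = [.g true r] from hl] at h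
    exact ⟨hr, h _ (List.mem_singleton.2 rfl)⟩
  · rintro q ⟨hq, hq'⟩ r ⟨hr, hr'⟩
    obtain ⟨l, ⟨s, hs, h1, h2, rfl⟩, h⟩ := hT (.dir q r) ⟨hq, hr⟩ (fun x hx => by
      simp only [pre, List.mem_cons, List.not_mem_nil, or_false] at hx
      rcases hx with rfl | rfl
      · exact hq'
      · exact hr')
    exact ⟨s, ⟨hs, h _ (List.mem_singleton.2 rfl)⟩, h1, h2⟩
  · rintro D ⟨ψ, hψ, rfl⟩ hD
    obtain ⟨l, ⟨r, hr, h1, rfl⟩, h⟩ := hT (.den ψ) ⟨hψ, hD⟩ (fun x hx => by
      simp only [pre] at hx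
      exact absurd hx List.not_mem_nil)
    exact ⟨r, ⟨hr, h1⟩, hD.1 ⟨hr, h1⟩, h _ (List.mem_singleton.2 rfl)⟩

end

end Q207.AM
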