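import Pool.Agent.Q207.AM.Mos
import Pool.Agent.Q207.AM.Rule
import Pool.Agent.Q207.AM.Defs

/-!
# Transfer of consistency from the universe to the collapsed model
-/

set_option autoImplicit false

namespace Q207.AM

open ZFSet (pair)
open Pool.Agent.W868 (Fml Sat Dfn DfnF IsBase IsZF IsZFC TOver tOver_inr isBase_univ sat_subst
  over_subst over_map sat_map sat_congr nat mem_omega_iff map_map)
open Q207.CF (IsName val mem_val Ext IsFilter IsDense IsDefinable IsGeneric Forces wf_name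
  isName_iff)
open Par (ps)

/-! ### Data -/

/-- The parameters of a letter. -/
def psLt : Lt → Set ZFSet.{0}
  | .g _ p => {p}
  | .f _ χ => pf χ

instance : Par Lt where
  ps := psLt
  fin B := by
    cases B with
    | g b p => exact Set.finite_singleton p
    | f b χ => exact pf_finite χ
  cnt X hX := by
    have h1 : {B : Lt | psLt B ⊆ X} ⊆
        ((fun p : Bool × ZFSet.{0} => Lt.g p.1 p.2) '' (Set.univ ×ˢ X)) ∪
        ((fun p : Bool × Fml ZFSet.{0} 0 => Lt.f p.1 p.2) '' (Set.univ ×ˢ {χ | pf χ ⊆ X})) := by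
      rintro (⟨b, p⟩ | ⟨b, χ⟩) h
      · exact Or.inl ⟨(b, p), ⟨trivial, h rfl⟩, rfl⟩
      · exact Or.inr ⟨(b, χ), ⟨trivial, h⟩, rfl⟩
    have h2 : (Set.univ : Set Bool).Countable := Set.countable_univ
    exact (((h2.prod hX).image _).union ((h2.prod (Par.cnt X hX (D := Fml ZFSet.{0} 0))).image _)).mono
      h1

/-- The parameters of a rule. -/
def psRu : Ru → Set ZFSet.{0}
  | .con B => ps B
  | .dec B => ps B
  | .dir p q => {p, q}
  | .up p q => {p, q}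
  | .den ψ => pf ψ
  | .d1 χ => pf χ
  | .d2 χ l => pf χ ∪ ps l

instance : Par Ru where
  ps := psRu
  fin c := by
    cases c with
    | con B => exact Par.fin B
    | dec B => exact Par.fin B
    | dir p q => exact (Set.finite_singleton q).insert p
    | up p q => exact (Set.finite_singleton q).insert p
    | den ψ => exact pf_finite ψ
    | d1 χ => exact pf_finite χ
    | d2 χ l => exact (pf_finite χ).union (Par.fin l)
  cnt X hX := by
    have h1 : {c : Ru | psRu c ⊆ X} ⊆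
        (Ru.con '' {B | ps B ⊆ X}) ∪ ((Ru.dec '' {B | ps B ⊆ X}) ∪
        (((fun p : ZFSet.{0} × ZFSet.{0} => Ru.dir p.1 p.2) '' (X ×ˢ X)) ∪
        (((fun p : ZFSet.{0} × ZFSet.{0} => Ru.up p.1 p.2) '' (X ×ˢ X)) ∪
        ((Ru.den '' {ψ | ps ψ ⊆ X}) ∪ ((Ru.d1 '' {χ | ps χ ⊆ X}) ∪
        ((fun p : Fml ZFSet.{0} 0 × List Lt => Ru.d2 p.1 p.2) ''
          ({χ | ps χ ⊆ X} ×ˢ {l | ps l ⊆ X}))))))) := by
      rintro (B | B | ⟨p, q⟩ | ⟨p, q⟩ | ψ | χ | ⟨χ, l⟩) h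
      · exact Or.inl ⟨B, h, rfl⟩
      · exact Or.inr (Or.inl ⟨B, h, rfl⟩)
      · exact Or.inr (Or.inr (Or.inl ⟨(p, q), ⟨h (Or.inl rfl), h (Or.inr rfl)⟩, rfl⟩))
      · exact Or.inr (Or.inr (Or.inr (Or.inl ⟨(p, q), ⟨h (Or.inl rfl), h (Or.inr rfl)⟩, rfl⟩)))
      · exact Or.inr (Or.inr (Or.inr (Or.inr (Or.inl ⟨ψ, h, rfl⟩))))
      · exact Or.inr (Or.inr (Or.inr (Or.inr (Or.inr (Or.inl ⟨χ, h, rfl⟩)))))
      · exact Or.inr (Or.inr (Or.inr (Or.inr (Or.inr (Or.inr ⟨(χ, l),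
          ⟨fun x hx => h (Or.inl hx), fun x hx => h (Or.inr hx)⟩, rfl⟩)))))
    have hB := Par.cnt X hX (D := Lt)
    have h0 := Par.cnt X hX (D := Fml ZFSet.{0} 0)
    refine Set.Countable.mono h1 ?_
    exact (hB.image _).union ((hB.image _).union (((hX.prod hX).image _).union
      (((hX.prod hX).image _).union (((Par.cnt X hX (D := Fml ZFSet.{0} 1)).image _).union
      ((h0.image _).union ((h0.prod (Par.cnt X hX (D := List Lt))).image _))))))

/-! ### Change of parameters -/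

/-- Change of parameters in letters. -/
def Lt.mp (h : ZFSet.{0} → ZFSet.{0}) : Lt → Lt
  | .g b p => .g b (h p)
  | .f b χ => .f b (χ.map h)

/-- Change of parameters in rules. -/
def Ru.mp (h : ZFSet.{0} → ZFSet.{0}) : Ru → Ru
  | .con B => .con (B.mp h)
  | .dec B => .dec (B.mp h)
  | .dir p q => .dir (h p) (h q)
  | .up p q => .up (h p) (h q)
  | .den ψ => .den (ψ.map h)
  | .d1 χ => .d1 (χ.map h)
  | .d2 χ l => .d2 (χ.map h) (l.map (Lt.mp h))

theorem mp_neg (h : ZFSet.{0} → ZFSet.{0}) (B : Lt) : (B.mp h).neg = B.neg.mp h := by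
  cases B <;> rfl

theorem sg_map (h : ZFSet.{0} → ZFSet.{0}) (χ : Fml ZFSet.{0} 0) : sg (χ.map h) = sg χ := by
  cases χ <;> rfl

theorem pre_map (h : ZFSet.{0} → ZFSet.{0}) (c : Ru) : pre (c.mp h) = (pre c).map (Lt.mp h) := by
  cases c with
  | con B => simp [pre, Ru.mp, mp_neg]
  | dec B => rfl
  | dir p q => rfl
  | up p q => rfl
  | den ψ => rfl
  | d1 χ => simp [pre, Ru.mp, Lt.mp, sg_map]
  | d2 χ l => simp [pre, Ru.mp, Lt.mp, sg_map]

theorem tsubst_map {A B : Type*} (h : A → B) {n m : ℕ} (σ : Fin n → Fin m ⊕ A)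
    (s : Fin n ⊕ A) :
    (Sum.map id h (Pool.Agent.W868.tsubst σ s) : Fin m ⊕ B) =
      Pool.Agent.W868.tsubst (fun k => Sum.map id h (σ k)) (Sum.map id h s) := by
  cases s <;> rfl

theorem subst_map {A B : Type*} (h : A → B) : {n m : ℕ} → (φ : Fml A n) →
    (σ : Fin n → Fin m ⊕ A) →
      (φ.subst σ).map h = (φ.map h).subst fun k => Sum.map id h (σ k)
  | _, _, .mem s t, σ => by
    simp only [Pool.Agent.W868.Fml.subst, Pool.Agent.W868.Fml.map, tsubst_map]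
  | _, _, .eq s t, σ => by
    simp only [Pool.Agent.W868.Fml.subst, Pool.Agent.W868.Fml.map, tsubst_map]
  | _, _, .neg φ, σ => by
    simp only [Pool.Agent.W868.Fml.subst, Pool.Agent.W868.Fml.map, subst_map h φ]
  | _, _, .and φ ψ, σ => by
    simp only [Pool.Agent.W868.Fml.subst, Pool.Agent.W868.Fml.map, subst_map h φ, subst_map h ψ]
  | n, m, .ex φ, σ => by
    simp only [Pool.Agent.W868.Fml.subst, Pool.Agent.W868.Fml.map, subst_map h φ]
    have h1 : (fun k => (Sum.map id h (Pool.Agent.W868.lift σ k) : Fin (m + 1) ⊕ B)) =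
        Pool.Agent.W868.lift fun k => Sum.map id h (σ k) := by
      funext k
      refine Fin.cases ?_ (fun k => ?_) k
      · rfl
      · simp only [Pool.Agent.W868.lift, Fin.cons_succ]
        cases σ k <;> rfl
    rw [h1]

/-- Parameters that are substituted but do not occur in the result can be replaced. -/
theorem subst_eq {A : Type*} {X : Set A} : {n m : ℕ} → (φ : Fml A n) →
    (σ σ' : Fin n → Fin m ⊕ A) → (∀ k, σ k = σ' k ∨ ∃ a, a ∉ X ∧ σ k = Sum.inr a) →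
      (φ.subst σ).Over X → φ.subst σ = φ.subst σ'
  | n, m, .mem s t, σ, σ', h, ho => by
    have h1 : ∀ s : Fin n ⊕ A, TOver X (Pool.Agent.W868.tsubst σ s) →
        Pool.Agent.W868.tsubst σ s = Pool.Agent.W868.tsubst σ' s := by
      intro s hs
      cases s with
      | inl k =>
        rcases h k with h1 | ⟨a, ha, h1⟩
        · exact h1
        · exact absurd (hs a h1) ha
      | inr a => rfl
    simp only [Pool.Agent.W868.Fml.subst]
    rw [h1 s ho.1, h1 t ho.2]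
  | n, m, .eq s t, σ, σ', h, ho => by
    have h1 : ∀ s : Fin n ⊕ A, TOver X (Pool.Agent.W868.tsubst σ s) →
        Pool.Agent.W868.tsubst σ s = Pool.Agent.W868.tsubst σ' s := by
      intro s hs
      cases s with
      | inl k =>
        rcases h k with h1 | ⟨a, ha, h1⟩
        · exact h1
        · exact absurd (hs a h1) ha
      | inr a => rfl
    simp only [Pool.Agent.W868.Fml.subst]
    rw [h1 s ho.1, h1 t ho.2]
  | _, _, .neg φ, σ, σ', h, ho => by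
    simp only [Pool.Agent.W868.Fml.subst]
    rw [subst_eq φ σ σ' h ho]
  | _, _, .and φ ψ, σ, σ', h, ho => by
    simp only [Pool.Agent.W868.Fml.subst]
    rw [subst_eq φ σ σ' h ho.1, subst_eq ψ σ σ' h ho.2]
  | _, _, .ex φ, σ, σ', h, ho => by
    simp only [Pool.Agent.W868.Fml.subst]
    rw [subst_eq φ (Pool.Agent.W868.lift σ) (Pool.Agent.W868.lift σ') ?_ ho]
    intro k
    refine Fin.cases ?_ (fun k => ?_) k
    · exact Or.inl rfl
    · simp only [Pool.Agent.W868.lift, Fin.cons_succ]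
      rcases h k with h1 | ⟨a, ha, h1⟩
      · exact Or.inl (by rw [h1])
      · exact Or.inr ⟨a, ha, by rw [h1]; rfl⟩

theorem inst_eq {X : Set ZFSet.{0}} {ψ : Fml ZFSet.{0} 1} {a : ZFSet.{0}} (ha : a ∉ X)
    (h : (inst ψ a).Over X) (b : ZFSet.{0}) : inst ψ a = inst ψ b :=
  subst_eq ψ _ _ (fun _ => Or.inr ⟨a, ha, rfl⟩) h

theorem inst_map (h : ZFSet.{0} → ZFSet.{0}) (ψ : Fml ZFSet.{0} 1) (a : ZFSet.{0}) :
    (inst ψ a).map h = inst (ψ.map h) (h a) := by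
  rw [inst, subst_map]
  rfl

theorem map_left {X : Set ZFSet.{0}} {f h : ZFSet.{0} → ZFSet.{0}} (hh : ∀ a ∈ X, h (f a) = a)
    {n : ℕ} {φ : Fml ZFSet.{0} n} (hφ : φ.Over X) : (φ.map f).map h = φ := by
  rw [map_map]
  conv_rhs => rw [← Pool.Agent.W868.map_id' φ]
  exact map_congr' (fun a ha => hh a ha) φ hφ

theorem mp_left {X : Set ZFSet.{0}} {f h : ZFSet.{0} → ZFSet.{0}} (hh : ∀ a ∈ X, h (f a) = a)
    {B : Lt} (hB : ps B ⊆ X) : (B.mp f).mp h = B := by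
  cases B with
  | g b p => simp only [Lt.mp, hh p (hB rfl)]
  | f b χ => simp only [Lt.mp, map_left hh (over_iff.2 hB)]

theorem list_left {X : Set ZFSet.{0}} {f h : ZFSet.{0} → ZFSet.{0}} (hh : ∀ a ∈ X, h (f a) = a)
    {l : List Lt} (hl : ps l ⊆ X) : (l.map (Lt.mp f)).map (Lt.mp h) = l := by
  rw [List.map_map]
  conv_rhs => rw [← List.map_id l]
  refine List.map_congr_left fun B hB => ?_
  exact mp_left hh (ps_list.1 hl B hB)

theorem ru_left {X : Set ZFSet.{0}} {f h : ZFSet.{0} → ZFSet.{0}} (hh : ∀ a ∈ X, h (f a) = a)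
    {c : Ru} (hc : ps c ⊆ X) : (c.mp f).mp h = c := by
  cases c with
  | con B => simp only [Ru.mp, mp_left hh hc]
  | dec B => simp only [Ru.mp, mp_left hh hc]
  | dir p q => simp only [Ru.mp, hh p (hc (Or.inl rfl)), hh q (hc (Or.inr rfl))]
  | up p q => simp only [Ru.mp, hh p (hc (Or.inl rfl)), hh q (hc (Or.inr rfl))]
  | den ψ => simp only [Ru.mp, map_left hh (over_iff.2 hc)]
  | d1 χ => simp only [Ru.mp, map_left hh (over_iff.2 hc)]
  | d2 χ l =>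
    simp only [Ru.mp, map_left hh (over_iff.2 fun x hx => hc (Or.inl hx)),
      list_left hh fun x hx => hc (Or.inr hx)]

theorem ps_map {X Y : Set ZFSet.{0}} {f : ZFSet.{0} → ZFSet.{0}} (hf : ∀ a ∈ X, f a ∈ Y)
    {n : ℕ} {φ : Fml ZFSet.{0} n} (hφ : pf φ ⊆ X) : pf (φ.map f) ⊆ Y := by
  rw [← over_iff, over_map]
  exact Fml.Over.mono (fun a ha => hf a ha) (over_iff.2 hφ)

theorem ps_mp {X Y : Set ZFSet.{0}} {f : ZFSet.{0} → ZFSet.{0}} (hf : ∀ a ∈ X, f a ∈ Y)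
    {B : Lt} (hB : ps B ⊆ X) : ps (B.mp f) ⊆ Y := by
  cases B with
  | g b p =>
    rintro x rfl
    exact hf p (hB rfl)
  | f b χ => exact ps_map hf hB

theorem ps_lmp {X Y : Set ZFSet.{0}} {f : ZFSet.{0} → ZFSet.{0}} (hf : ∀ a ∈ X, f a ∈ Y)
    {l : List Lt} (hl : ps l ⊆ X) : ps (l.map (Lt.mp f)) ⊆ Y := by
  rw [ps_list] at hl ⊢
  intro B hB
  obtain ⟨B, hB', rfl⟩ := List.mem_map.1 hB
  exact ps_mp hf (hl B hB')

theorem ps_rmp {X Y : Set ZFSet.{0}} {f : ZFSet.{0} → ZFSet.{0}} (hf : ∀ a ∈ X, f a ∈ Y)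
    {c : Ru} (hc : ps c ⊆ X) : ps (c.mp f) ⊆ Y := by
  cases c with
  | con B => exact ps_mp hf hc
  | dec B => exact ps_mp hf hc
  | dir p q =>
    rintro x (rfl | rfl)
    · exact hf _ (hc (Or.inl rfl))
    · exact hf _ (hc (Or.inr rfl))
  | up p q =>
    rintro x (rfl | rfl)
    · exact hf _ (hc (Or.inl rfl))
    · exact hf _ (hc (Or.inr rfl))
  | den ψ => exact ps_map hf hc
  | d1 χ => exact ps_map hf hc
  | d2 χ l =>
    rintro x (hx | hx)
    · exact ps_map hf (fun x hx => hc (Or.inl hx)) hx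
    · exact ps_lmp hf (fun x hx => hc (Or.inr hx)) hx

theorem ps_pre {X : Set ZFSet.{0}} {c : Ru} (hc : ps c ⊆ X) : ps (pre c) ⊆ X := by
  rw [ps_list]
  intro B hB
  cases c with
  | con B' =>
    simp only [pre, List.mem_cons, List.not_mem_nil, or_false] at hB
    rcases hB with rfl | rfl
    · exact hc
    · cases B' <;> exact hc
  | dec B' => exact absurd hB List.not_mem_nil
  | dir p q =>
    simp only [pre, List.mem_cons, List.not_mem_nil, or_false] at hB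
    rcases hB with rfl | rfl
    · rintro x rfl
      exact hc (Or.inl rfl)
    · rintro x rfl
      exact hc (Or.inr rfl)
  | up p q =>
    simp only [pre, List.mem_cons, List.not_mem_nil, or_false] at hB
    subst hB
    rintro x rfl
    exact hc (Or.inl rfl)
  | den ψ => exact absurd hB List.not_mem_nil
  | d1 χ =>
    simp only [pre, List.mem_cons, List.not_mem_nil, or_false] at hB
    subst hB
    exact hc
  | d2 χ l =>
    simp only [pre, List.mem_cons, List.not_mem_nil, or_false] at hB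
    subst hB
    exact fun x hx => hc (Or.inl hx)

/-! ### The classes -/

/-- Consistency over `N`. -/
def Co (N : Set ZFSet.{0}) (δ : Fml ZFSet.{0} 1) (ρ : Fml ZFSet.{0} 2) (t : List Lt) : Prop :=
  Pos {c | Vl N (Cls δ N) (Rel ρ N) c} pre (ans N (Cls δ N) (Rel ρ N)) t

/-- The rank of inconsistent lists. -/
noncomputable def rkU (δ : Fml ZFSet.{0} 1) (ρ : Fml ZFSet.{0} 2) : List Lt → Ordinal.{1} :=
  (exists_rank {c | Vl Set.univ (Cls δ Set.univ) (Rel ρ Set.univ) c} pre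
    (ans Set.univ (Cls δ Set.univ) (Rel ρ Set.univ))).choose

/-- Failure to be a name. -/
def Rnm (d : Fml ZFSet.{0} 1 × ZFSet.{0}) (x : ZFSet.{0}) : Prop :=
  x ∈ d.2 ∧ ¬ ∃ τ p, p ∈ Cls d.1 Set.univ ∧ x = pair τ p ∧ IsName (Cls d.1 Set.univ) τ

/-- A consistent answer. -/
def Rans (d : (Fml ZFSet.{0} 1 × Fml ZFSet.{0} 2) × (Ru × List Lt)) (l : List Lt) : Prop :=
  l ∈ ans Set.univ (Cls d.1.1 Set.univ) (Rel d.1.2 Set.univ) d.2.1 ∧
    Co Set.univ d.1.1 d.1.2 (l ++ d.2.2)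

/-- A rule that refutes the list. -/
def Rrul (d : (Fml ZFSet.{0} 1 × Fml ZFSet.{0} 2) × List Lt) (c : Ru) : Prop :=
  Vl Set.univ (Cls d.1.1 Set.univ) (Rel d.1.2 Set.univ) c ∧ (∀ x ∈ pre c, x ∈ d.2) ∧
    ∀ l ∈ ans Set.univ (Cls d.1.1 Set.univ) (Rel d.1.2 Set.univ) c,
      ¬ Co Set.univ d.1.1 d.1.2 (l ++ d.2) ∧ rkU d.1.1 d.1.2 (l ++ d.2) < rkU d.1.1 d.1.2 d.2

/-- A hull with the required closure properties. -/
structure Hul' (X : Set ZFSet.{0}) : Prop extends Hul X where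
  nm : opR Rnm X ⊆ X
  an : opR Rans X ⊆ X
  ru : opR Rrul X ⊆ X

section

variable {X : Set ZFSet.{0}} (hX : Hul' X) {δ : Fml ZFSet.{0} 1} {ρ : Fml ZFSet.{0} 2}
  (hδ : δ.Over X) (hρ : ρ.Over X)

include hX

/-- The left inverse of the collapse. -/
theorem exists_left : ∃ h : ZFSet.{0} → ZFSet.{0}, (∀ a ∈ X, h (mos X a) = a) ∧
    (∀ a ∈ Mo X, h a ∈ X ∧ mos X (h a) = a) := by
  obtain ⟨h, hh⟩ := exists_inv X
  refine ⟨h, fun a ha => ?_, hh⟩
  have h1 := hh _ ⟨a, ha, rfl⟩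
  exact (mos_inj hX.toHul h1.1 ha).1 h1.2

theorem of_mos_pair {y a b : ZFSet.{0}} (hy : y ∈ X) (h : mos X y = pair a b) :
    ∃ π ∈ X, ∃ e ∈ X, y = pair π e ∧ mos X π = a ∧ mos X e = b := by
  have h1 : pair a b ∈ Mo X := ⟨y, hy, h⟩
  have h2 : ({a, b} : ZFSet.{0}) ∈ Mo X := trans_Mo hX.toHul _ h1 _ (by simp [pair])
  obtain ⟨π, hπ, rfl⟩ := trans_Mo hX.toHul _ h2 a (by simp)
  obtain ⟨e, he, rfl⟩ := trans_Mo hX.toHul _ h2 b (by simp)
  refine ⟨π, hπ, e, he, ?_, rfl, rfl⟩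
  rw [← mos_pair hX.toHul hπ he] at h
  exact (mos_inj hX.toHul hy (pair_X hX.toHul hπ he)).1 h

include hδ

theorem cls_iff {x : ZFSet.{0}} (hx : x ∈ X) :
    x ∈ Cls δ Set.univ ↔ mos X x ∈ Cls (δ.map (mos X)) (Mo X) := by
  have h1 := sat_mos1 hX.toHul hδ hx
  exact ⟨fun h => ⟨⟨x, hx, rfl⟩, h1.2 h.2⟩, fun h => ⟨trivial, h1.1 h.2⟩⟩

theorem name_iff : ∀ σ : ZFSet.{0}, σ ∈ X →
    (IsName (Cls δ Set.univ) σ ↔ IsName (Cls (δ.map (mos X)) (Mo X)) (mos X σ)) := by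
  intro σ
  induction σ using wf_name.induction with
  | _ σ ih =>
  intro hσ
  rw [isName_iff, isName_iff (σ := mos X σ)]
  constructor
  · intro h x' hx'
    obtain ⟨x, hx, hxX, rfl⟩ := mem_mos.1 hx'
    obtain ⟨τ, p, hp, rfl, hτ⟩ := h x hx
    obtain ⟨h1, h2⟩ := of_pair_X hX.toHul hxX
    exact ⟨mos X τ, mos X p, (cls_iff hX hδ h2).1 hp, mos_pair hX.toHul h1 h2,
      (ih τ ⟨p, hx⟩ h1).1 hτ⟩
  · intro h
    by_contra h1
    push Not at h1
    obtain ⟨x, hx, h1⟩ := h1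
    have h2 : ∃ x, Rnm (δ, σ) x := by
      refine ⟨x, hx, ?_⟩
      rintro ⟨τ, p, hp, h3, h4⟩
      exact h1 τ p hp h3 h4
    obtain ⟨x, hxX, hx, h3⟩ := wit_of hX.nm (d := (δ, σ))
      (ps_prod.2 ⟨over_iff.1 hδ, ps_set.2 hσ⟩) h2
    rw [ps_set] at hxX
    obtain ⟨τ', p', hp', h4, h5⟩ := h (mos X x) (mem_mos.2 ⟨x, hx, hxX, rfl⟩)
    obtain ⟨τ, hτ, p, hp, rfl, rfl, rfl⟩ := of_mos_pair hX hxX h4
    exact h3 ⟨τ, p, (cls_iff hX hδ hp).2 hp', rfl, (ih τ ⟨p, hx⟩ hτ).2 h5⟩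

theorem nm_iff {σ : ZFSet.{0}} (hσ : σ ∈ X) : σ ∈ Nm Set.univ (Cls δ Set.univ) ↔
    mos X σ ∈ Nm (Mo X) (Cls (δ.map (mos X)) (Mo X)) := by
  have h1 := name_iff hX hδ σ hσ
  exact ⟨fun h => ⟨⟨σ, hσ, rfl⟩, h1.1 h.2⟩, fun h => ⟨trivial, h1.2 h.2⟩⟩

theorem over_nm {n : ℕ} {χ : Fml ZFSet.{0} n} (hχ : χ.Over X) :
    χ.Over (Nm Set.univ (Cls δ Set.univ)) ↔
      (χ.map (mos X)).Over (Nm (Mo X) (Cls (δ.map (mos X)) (Mo X))) := by
  rw [over_map, over_iff, over_iff]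
  rw [over_iff] at hχ
  exact ⟨fun h x hx => (nm_iff hX hδ (hχ hx)).1 (h hx),
    fun h x hx => (nm_iff hX hδ (hχ hx)).2 (h hx)⟩

theorem ok_iff {B : Lt} (hB : ps B ⊆ X) : Ok Set.univ (Cls δ Set.univ) B ↔
    Ok (Mo X) (Cls (δ.map (mos X)) (Mo X)) (B.mp (mos X)) := by
  cases B with
  | g b p => exact cls_iff hX hδ (hB rfl)
  | f b χ => exact over_nm hX hδ (over_iff.2 hB)

omit hX hδ in
theorem tm_map (f : ZFSet.{0} → ZFSet.{0}) (t : Fin 0 ⊕ ZFSet.{0}) :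
    tm (Sum.map id f t) = f (tm t) := by
  cases t with
  | inl i => exact i.elim0
  | inr a => rfl

omit hX hδ in
theorem tm_X {t : Fin 0 ⊕ ZFSet.{0}} (h : TOver X t) : tm t ∈ X := tm_mem h

theorem dis_map {χ : Fml ZFSet.{0} 0} (hχ : χ.Over X) {l' : List Lt} :
    l' ∈ Dis (Mo X) (Cls (δ.map (mos X)) (Mo X)) (χ.map (mos X)) ↔
      ∃ l ∈ Dis Set.univ (Cls δ Set.univ) χ, ps l ⊆ X ∧ l' = l.map (Lt.mp (mos X)) := by
  have ps2 : ∀ {B B' : Lt}, ps B ⊆ X → ps B' ⊆ X → ps [B, B'] ⊆ X := by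
    intro B B' h1 h2
    rw [ps_list]
    intro D hD
    simp only [List.mem_cons, List.not_mem_nil, or_false] at hD
    rcases hD with rfl | rfl
    · exact h1
    · exact h2
  have ps1 : ∀ {B : Lt}, ps B ⊆ X → ps [B] ⊆ X := by
    intro B h1
    rw [ps_list]
    intro D hD
    rw [List.mem_singleton.1 hD]
    exact h1
  have psg : ∀ {b : Bool} {e : ZFSet.{0}}, e ∈ X → ps (Lt.g b e) ⊆ X := by
    rintro b e he x rfl
    exact he
  cases χ with
  | mem s t =>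
    simp only [Dis, Pool.Agent.W868.Fml.map, tm_map]
    constructor
    · rintro ⟨π', e', h, rfl⟩
      obtain ⟨y, hy, hyX, h1⟩ := mem_mos.1 h
      obtain ⟨π, hπ, e, he, rfl, rfl, rfl⟩ := of_mos_pair hX hyX h1
      refine ⟨_, ⟨π, e, hy, rfl⟩, ps2 (psg he) ?_, rfl⟩
      exact over_iff.1 ⟨hχ.1, tOver_inr.2 hπ⟩
    · rintro ⟨_, ⟨π, e, h, rfl⟩, h1, rfl⟩
      rw [ps_list] at h1
      have he : e ∈ X := h1 (.g true e) (by simp) rfl
      have hπ : π ∈ X := by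
        have h2 := over_iff.2 (h1 (.f true (.eq s (Sum.inr π))) (by simp))
        exact tOver_inr.1 h2.2
      refine ⟨mos X π, mos X e, ?_, rfl⟩
      rw [← mos_pair hX.toHul hπ he]
      exact mem_mos.2 ⟨_, h, pair_X hX.toHul hπ he, rfl⟩
  | eq s t =>
    simp only [Dis, Pool.Agent.W868.Fml.map, tm_map]
    constructor
    · rintro (⟨π', e', h, rfl⟩ | ⟨π', e', h, rfl⟩)
      · obtain ⟨y, hy, hyX, h1⟩ := mem_mos.1 h
        obtain ⟨π, hπ, e, he, rfl, rfl, rfl⟩ := of_mos_pair hX hyX h1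
        refine ⟨_, Or.inl ⟨π, e, hy, rfl⟩, ps2 (psg he) ?_, rfl⟩
        exact over_iff.1 ⟨tOver_inr.2 hπ, hχ.2⟩
      · obtain ⟨y, hy, hyX, h1⟩ := mem_mos.1 h
        obtain ⟨π, hπ, e, he, rfl, rfl, rfl⟩ := of_mos_pair hX hyX h1
        refine ⟨_, Or.inr ⟨π, e, hy, rfl⟩, ps2 (psg he) ?_, rfl⟩
        exact over_iff.1 ⟨tOver_inr.2 hπ, hχ.1⟩
    · rintro ⟨_, ⟨π, e, h, rfl⟩ | ⟨π, e, h, rfl⟩, h1, rfl⟩
      · rw [ps_list] at h1
        have he : e ∈ X := h1 (.g true e) (by simp) rfl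
        have hπ : π ∈ X := by
          have h2 := over_iff.2 (h1 (.f false (.mem (Sum.inr π) t)) (by simp))
          exact tOver_inr.1 h2.1
        refine Or.inl ⟨mos X π, mos X e, ?_, rfl⟩
        rw [← mos_pair hX.toHul hπ he]
        exact mem_mos.2 ⟨_, h, pair_X hX.toHul hπ he, rfl⟩
      · rw [ps_list] at h1
        have he : e ∈ X := h1 (.g true e) (by simp) rfl
        have hπ : π ∈ X := by
          have h2 := over_iff.2 (h1 (.f false (.mem (Sum.inr π) s)) (by simp))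
          exact tOver_inr.1 h2.1
        refine Or.inr ⟨mos X π, mos X e, ?_, rfl⟩
        rw [← mos_pair hX.toHul hπ he]
        exact mem_mos.2 ⟨_, h, pair_X hX.toHul hπ he, rfl⟩
  | neg χ =>
    constructor
    · intro h
      exact ⟨_, rfl, ps1 (over_iff.1 hχ), h⟩
    · rintro ⟨l, h, -, rfl⟩
      rw [show l = [.f false χ] from h]
      rfl
  | and χ ξ =>
    constructor
    · intro h
      exact ⟨_, rfl, ps2 (over_iff.1 hχ.1) (over_iff.1 hχ.2), h⟩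
    · rintro ⟨l, h, -, rfl⟩
      rw [show l = [.f true χ, .f true ξ] from h]
      rfl
  | ex ψ =>
    simp only [Dis, Pool.Agent.W868.Fml.map]
    constructor
    · rintro ⟨a', ha', rfl⟩
      obtain ⟨a, ha, rfl⟩ := ha'.1
      refine ⟨_, ⟨a, (nm_iff hX hδ ha).2 ha', rfl⟩, ps1 (over_iff.1 (over_inst (ψ := ψ) hχ ha)), ?_⟩
      simp only [List.map_cons, List.map_nil, Lt.mp, inst_map]
    · rintro ⟨_, ⟨a, ha, rfl⟩, h1, rfl⟩
      have h2 : (inst ψ a).Over X := over_iff.2 (ps_list.1 h1 _ (List.mem_singleton.2 rfl))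
      by_cases haX : a ∈ X
      · refine ⟨mos X a, (nm_iff hX hδ haX).1 ha, ?_⟩
        simp only [List.map_cons, List.map_nil, Lt.mp, inst_map]
      · have h0 := empty_X hX.toHul
        have h3 : (∅ : ZFSet.{0}) ∈ Nm Set.univ (Cls δ Set.univ) :=
          ⟨trivial, isName_iff.2 fun x hx => absurd hx (ZFSet.notMem_empty _)⟩
        refine ⟨mos X ∅, (nm_iff hX hδ h0).1 h3, ?_⟩
        simp only [List.map_cons, List.map_nil, Lt.mp]
        rw [inst_eq haX h2 ∅, inst_map]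

omit hδ in
theorem rel_iff (hρ : ρ.Over X) {p q : ZFSet.{0}} (hp : p ∈ X) (hq : q ∈ X) :
    Rel ρ Set.univ p q ↔ Rel (ρ.map (mos X)) (Mo X) (mos X p) (mos X q) :=
  (sat_mos2 hX.toHul hρ hp hq).symm

theorem inj_lt {B B' : Lt} (hB : ps B ⊆ X) (hB' : ps B' ⊆ X)
    (h : B.mp (mos X) = B'.mp (mos X)) : B = B' := by
  obtain ⟨g, hg, -⟩ := exists_left hX
  rw [← mp_left hg hB, h, mp_left hg hB']

omit hδ in
theorem inj_list {l l' : List Lt} (hl : ps l ⊆ X) (hl' : ps l' ⊆ X)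
    (h : l.map (Lt.mp (mos X)) = l'.map (Lt.mp (mos X))) : l = l' := by
  obtain ⟨g, hg, -⟩ := exists_left hX
  rw [← list_left hg hl, h, list_left hg hl']

include hρ

theorem ans_map {c : Ru} (hc : ps c ⊆ X) {l' : List Lt} :
    l' ∈ ans (Mo X) (Cls (δ.map (mos X)) (Mo X)) (Rel (ρ.map (mos X)) (Mo X)) (c.mp (mos X)) ↔
      ∃ l ∈ ans Set.univ (Cls δ Set.univ) (Rel ρ Set.univ) c, ps l ⊆ X ∧
        l' = l.map (Lt.mp (mos X)) := by
  have ps1 : ∀ {B : Lt}, ps B ⊆ X → ps [B] ⊆ X := by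
    intro B h1
    rw [ps_list]
    intro D hD
    rw [List.mem_singleton.1 hD]
    exact h1
  have of1 : ∀ {B : Lt}, ps [B] ⊆ X → ps B ⊆ X := fun h =>
    ps_list.1 h _ (List.mem_singleton.2 rfl)
  have psg : ∀ {b : Bool} {e : ZFSet.{0}}, ps (Lt.g b e) ⊆ X ↔ e ∈ X := by
    intro b e
    exact ⟨fun h => h rfl, by rintro he x rfl; exact he⟩
  have psn : ∀ {B : Lt}, ps B ⊆ X → ps B.neg ⊆ X := by
    intro B h
    cases B <;> exact h
  cases c with
  | con B =>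
    constructor
    · intro h
      exact h.elim
    · rintro ⟨l, h, -⟩
      exact h.elim
  | dec B =>
    constructor
    · rintro (rfl | rfl)
      · exact ⟨[B], Or.inl rfl, ps1 hc, rfl⟩
      · exact ⟨[B.neg], Or.inr rfl, ps1 (psn hc), by rw [mp_neg]; rfl⟩
    · rintro ⟨l, rfl | rfl, -, rfl⟩
      · exact Or.inl rfl
      · exact Or.inr (by rw [mp_neg]; rfl)
  | dir p q =>
    have hp : p ∈ X := hc (Or.inl rfl)
    have hq : q ∈ X := hc (Or.inr rfl)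
    constructor
    · rintro ⟨r', hr', h1, h2, rfl⟩
      obtain ⟨r, hr, rfl⟩ := hr'.1
      exact ⟨_, ⟨r, (cls_iff hX hδ hr).2 hr', (rel_iff hX hρ hr hp).2 h1,
        (rel_iff hX hρ hr hq).2 h2, rfl⟩, ps1 (psg.2 hr), rfl⟩
    · rintro ⟨_, ⟨r, hr, h1, h2, rfl⟩, h3, rfl⟩
      have hrX := psg.1 (of1 h3)
      exact ⟨mos X r, (cls_iff hX hδ hrX).1 hr, (rel_iff hX hρ hrX hp).1 h1,
        (rel_iff hX hρ hrX hq).1 h2, rfl⟩
  | up p q =>
    have hq : q ∈ X := hc (Or.inr rfl)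
    constructor
    · intro h
      exact ⟨_, rfl, ps1 (psg.2 hq), h⟩
    · rintro ⟨_, rfl, -, rfl⟩
      rfl
  | den ψ =>
    have hψ : ψ.Over X := over_iff.2 hc
    constructor
    · rintro ⟨r', ⟨r, hr, rfl⟩, h1, rfl⟩
      exact ⟨_, ⟨r, trivial, (sat_mos1 hX.toHul hψ hr).1 h1, rfl⟩, ps1 (psg.2 hr), rfl⟩
    · rintro ⟨_, ⟨r, -, h1, rfl⟩, h3, rfl⟩
      have hrX := psg.1 (of1 h3)
      exact ⟨mos X r, ⟨r, hrX, rfl⟩, (sat_mos1 hX.toHul hψ hrX).2 h1, rfl⟩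
  | d1 χ => exact dis_map hX hδ (over_iff.2 hc)
  | d2 χ l =>
    constructor
    · rintro ⟨B', hB', rfl⟩
      obtain ⟨B, hB, rfl⟩ := List.mem_map.1 hB'
      refine ⟨_, ⟨B, hB, rfl⟩, ps1 (psn ?_), by rw [mp_neg]; rfl⟩
      exact ps_list.1 (fun x hx => hc (Or.inr hx)) B hB
    · rintro ⟨_, ⟨B, hB, rfl⟩, -, rfl⟩
      exact ⟨B.mp (mos X), List.mem_map.2 ⟨B, hB, rfl⟩, by rw [mp_neg]; rfl⟩

theorem vl_map {c : Ru} (hc : ps c ⊆ X) :
    Vl Set.univ (Cls δ Set.univ) (Rel ρ Set.univ) c ↔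
      Vl (Mo X) (Cls (δ.map (mos X)) (Mo X)) (Rel (ρ.map (mos X)) (Mo X)) (c.mp (mos X)) := by
  cases c with
  | con B => exact ok_iff hX hδ hc
  | dec B => exact ok_iff hX hδ hc
  | dir p q =>
    exact and_congr (cls_iff hX hδ (hc (Or.inl rfl))) (cls_iff hX hδ (hc (Or.inr rfl)))
  | up p q =>
    exact and_congr (cls_iff hX hδ (hc (Or.inl rfl))) (and_congr
      (cls_iff hX hδ (hc (Or.inr rfl))) (rel_iff hX hρ (hc (Or.inl rfl)) (hc (Or.inr rfl))))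
  | den ψ =>
    have hψ : ψ.Over X := over_iff.2 hc
    have h0 : (ψ.map (mos X)).Over (Mo X) :=
      over_iff.2 (ps_map (X := X) (fun a ha => (⟨a, ha, rfl⟩ : mos X a ∈ Mo X)) hc)
    have hd : Dfn X Set.univ fun w : Fin 1 → ZFSet.{0} => w 0 ∈ Cls δ Set.univ := by
      refine (dfn1 hδ (DfnF.proj 0)).congr fun w _ => ?_
      exact ⟨fun h => ⟨trivial, h⟩, fun h => h.2⟩
    simp only [Vl]
    constructor
    · rintro ⟨-, h1, h2⟩
      refine ⟨h0, ?_, ?_⟩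
      · rintro _ ⟨⟨x, hx, rfl⟩, h3⟩
        exact (cls_iff hX hδ hx).1 (h1 ⟨trivial, (sat_mos1 hX.toHul hψ hx).1 h3⟩)
      · intro p' hp'
        obtain ⟨p, hp, rfl⟩ := hp'.1
        obtain ⟨q, hq, h3, h4⟩ := hX.ex (Q := fun q => Sat Set.univ id ψ ![q] ∧
            Rel ρ Set.univ q p) ((dfn1 hψ (DfnF.proj 0)).and (dfn2 hρ (DfnF.proj 0) (dc hp))) (by
          obtain ⟨q, hq, h3⟩ := h2 p ((cls_iff hX hδ hp).2 hp')
          exact ⟨q, hq.2, h3⟩)
        exact ⟨mos X q, ⟨⟨q, hq, rfl⟩, (sat_mos1 hX.toHul hψ hq).2 h3⟩,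
          (rel_iff hX hρ hq hp).1 h4⟩
    · rintro ⟨-, h1, h2⟩
      refine ⟨Fml.Over.mono (fun _ _ => trivial) hψ, ?_, ?_⟩
      · rintro x ⟨-, hx⟩
        refine hX.all (Q := fun x => Sat Set.univ id ψ ![x] → x ∈ Cls δ Set.univ)
          ((dfn1 hψ (DfnF.proj 0)).imp hd) ?_ x hx
        intro x hx h3
        exact (cls_iff hX hδ hx).2 (h1 ⟨⟨x, hx, rfl⟩, (sat_mos1 hX.toHul hψ hx).2 h3⟩)
      · intro p hp
        obtain ⟨q, -, h3, h4⟩ := hX.all (Q := fun p => p ∈ Cls δ Set.univ →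
            ∃ q ∈ Set.univ, Sat Set.univ id ψ ![q] ∧ Rel ρ Set.univ q p) (by
          apply Dfn.imp hd
          apply Dfn.ex
          exact (dfn1 hψ (DfnF.proj 0)).and (dfn2 hρ (DfnF.proj 0) (DfnF.proj 1))) (by
          intro p hp hpP
          obtain ⟨_, ⟨⟨q, hq, rfl⟩, h3⟩, h4⟩ := h2 _ ((cls_iff hX hδ hp).1 hpP)
          exact ⟨q, trivial, (sat_mos1 hX.toHul hψ hq).1 h3, (rel_iff hX hρ hq hp).2 h4⟩) p hp
        exact ⟨q, ⟨trivial, h3⟩, h4⟩
  | d1 χ => exact over_nm hX hδ (over_iff.2 hc)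
  | d2 χ l =>
    have hχ : χ.Over X := over_iff.2 fun x hx => hc (Or.inl hx)
    have hl : ps l ⊆ X := fun x hx => hc (Or.inr hx)
    refine and_congr (over_nm hX hδ hχ) ?_
    rw [dis_map hX hδ hχ]
    constructor
    · intro h
      exact ⟨l, h, hl, rfl⟩
    · rintro ⟨l₂, h, h2, h3⟩
      rwa [inj_list hX hl h2 h3]

omit hδ hρ hX in
theorem ps_ok {N P : Set ZFSet.{0}} (hP : P ⊆ N) {B : Lt} (hB : Ok N P B) : ps B ⊆ N := by
  cases B with
  | g b p =>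
    rintro x rfl
    exact hP hB
  | f b χ => exact over_iff.1 (Fml.Over.mono (fun a ha => ha.1) hB)

omit hδ hρ in
/-- Valid rules of the collapsed model have their parameters there. -/
theorem ps_vl {δ' : Fml ZFSet.{0} 1} {ρ' : Fml ZFSet.{0} 2} {c : Ru}
    (h : Vl (Mo X) (Cls δ' (Mo X)) (Rel ρ' (Mo X)) c) : ps c ⊆ Mo X := by
  have hP : Cls δ' (Mo X) ⊆ Mo X := fun p hp => hp.1
  cases c with
  | con B => exact ps_ok hP h
  | dec B => exact ps_ok hP h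
  | dir p q =>
    rintro x (rfl | rfl)
    · exact hP h.1
    · exact hP h.2
  | up p q =>
    rintro x (rfl | rfl)
    · exact hP h.1
    · exact hP h.2.1
  | den ψ => exact over_iff.1 h.1
  | d1 χ => exact over_iff.1 (Fml.Over.mono (fun a ha => ha.1) h)
  | d2 χ l =>
    rintro x (hx | hx)
    · exact over_iff.1 (Fml.Over.mono (fun a ha => ha.1) h.1) hx
    · refine ps_list.2 (fun B hB => ?_) hx
      exact ps_ok hP (ok_dis (trans_Mo hX.toHul) h.1 h.2 B hB)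

theorem ps_append {l t : List Lt} {Y : Set ZFSet.{0}} (hl : ps l ⊆ Y) (ht : ps t ⊆ Y) :
    ps (l ++ t) ⊆ Y := by
  rw [ps_list] at hl ht ⊢
  intro B hB
  rcases List.mem_append.1 hB with hB | hB
  · exact hl B hB
  · exact ht B hB

/-- Consistency is absolute between the universe and the collapsed model. -/
theorem co_iff {t : List Lt} (ht : ps t ⊆ X) : Co Set.univ δ ρ t ↔
    Co (Mo X) (δ.map (mos X)) (ρ.map (mos X)) (t.map (Lt.mp (mos X))) := by
  constructor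
  · intro h
    refine ⟨{t' | ∃ t, ps t ⊆ X ∧ Co Set.univ δ ρ t ∧ t' = t.map (Lt.mp (mos X))}, ?_,
      t, ht, h, rfl⟩
    rintro _ ⟨t, ht, h, rfl⟩ c' hc' hp
    obtain ⟨g, hg, hg'⟩ := exists_left hX
    have hc1 := ps_vl hX hc'
    have hc2 : ps (c'.mp g) ⊆ X := ps_rmp (fun a ha => (hg' a ha).1) hc1
    have hc3 : (c'.mp g).mp (mos X) = c' := ru_left (fun a ha => (hg' a ha).2) hc1
    set c := c'.mp g with hcdef
    clear_value c
    subst hc3
    have hv := (vl_map hX hδ hρ hc2).2 hc'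
    have hp' : ∀ x ∈ pre c, x ∈ t := by
      intro x hx
      have h1 := hp (x.mp (mos X)) (by
        rw [pre_map]
        exact List.mem_map.2 ⟨x, hx, rfl⟩)
      obtain ⟨y, hy, h2⟩ := List.mem_map.1 h1
      rwa [← inj_lt hX hδ (ps_list.1 ht y hy) (ps_list.1 (ps_pre hc2) x hx) h2]
    have h3 : ∃ l, Rans ((δ, ρ), (c, t)) l := by
      obtain ⟨l, hl, h4⟩ := isCP_pos t h c hv hp'
      exact ⟨l, hl, h4⟩
    obtain ⟨l, hlX, hl, h4⟩ := wit_of hX.an (d := ((δ, ρ), (c, t)))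
      (ps_prod.2 ⟨ps_prod.2 ⟨over_iff.1 hδ, over_iff.1 hρ⟩, ps_prod.2 ⟨hc2, ht⟩⟩) h3
    refine ⟨l.map (Lt.mp (mos X)), (ans_map hX hδ hρ hc2).2 ⟨l, hl, hlX, rfl⟩, l ++ t,
      ps_append hX hδ hρ hlX ht, h4, ?_⟩
    rw [List.map_append]
  · intro h
    by_contra h0
    have key : ∀ o : Ordinal.{1}, ∀ t : List Lt, ps t ⊆ X → ¬ Co Set.univ δ ρ t →
        rkU δ ρ t = o →
          ¬ Co (Mo X) (δ.map (mos X)) (ρ.map (mos X)) (t.map (Lt.mp (mos X))) := by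
      intro o
      induction o using Ordinal.induction with
      | _ o ih =>
      intro t ht hn ho hc
      have h1 : ∃ c, Rrul ((δ, ρ), t) c := by
        obtain ⟨c, hc, hp, h2⟩ := (exists_rank {c | Vl Set.univ (Cls δ Set.univ)
          (Rel ρ Set.univ) c} pre (ans Set.univ (Cls δ Set.univ) (Rel ρ Set.univ))).choose_spec
          t hn
        exact ⟨c, hc, hp, h2⟩
      obtain ⟨c, hcX, hv, hp, h2⟩ := wit_of hX.ru (d := ((δ, ρ), t))
        (ps_prod.2 ⟨ps_prod.2 ⟨over_iff.1 hδ, over_iff.1 hρ⟩, ht⟩) h1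
      obtain ⟨l', hl', h3⟩ := isCP_pos _ hc (c.mp (mos X)) ((vl_map hX hδ hρ hcX).1 hv) (by
        intro x hx
        rw [pre_map] at hx
        obtain ⟨y, hy, rfl⟩ := List.mem_map.1 hx
        exact List.mem_map.2 ⟨y, hp y hy, rfl⟩)
      obtain ⟨l, hl, hlX, rfl⟩ := (ans_map hX hδ hρ hcX).1 hl'
      obtain ⟨h4, h5⟩ := h2 l hl
      refine ih _ (by rw [← ho]; exact h5) (l ++ t) (ps_append hX hδ hρ hlX ht) h4 rfl ?_
      rw [List.map_append]
      exact h3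
    exact key _ t ht h0 rfl h

end

end Q207.AM
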